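import Pool.Agent.Work.MP_f7e2e5_gt.Sy.Ent

open MeasureTheory Set Metric Filter Topology
open scoped RealInnerProductSpace Pointwise NNReal

noncomputable section

namespace Pool.Agent.Work.MP_f7e2e5_gt.Sy

variable {n : ℕ} {p : ℝ} {G : Subgroup (Iso n)} {μ : Measure (Sph n)}

/-- Initial segments of indices. -/
def Ini (n i : ℕ) : Finset (Fin n) := Finset.univ.filter fun l => (l : ℕ) < i

theorem Ini_mem {i : ℕ} {l : Fin n} : l ∈ Ini n i ↔ (l : ℕ) < i := by simp [Ini]

theorem Ini_card {i : ℕ} (h : i ≤ n) : (Ini n i).card = i := by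
  rw [Ini, Fin.card_filter_val_lt, min_eq_right h]

theorem pointwise {b : Fin n → Eu n} {ix : ℕ → Fin n} (hix : ∀ i < n, (ix i : ℕ) = i)
    {a : Fin n → ℝ} (ha : ∀ j, 0 < a j) (hm : ∀ i, a (ix (i + 1)) ≤ a (ix i)) {c δ h : ℝ}
    (hc : 0 < c) (hδ : 0 < δ) (ξ : Sph n) (hb : ∀ j, a j * |⟪(ξ : Eu n), b j⟫| ≤ c * h) (j : ℕ)
    (hj : j ≤ n) :
    (ξ ∈ Nb b (Ini n j) δ ∧ ∑ i ∈ Finset.range j, (Nb b (Ini n (i + 1)) δ).indicator
        (fun _ => Real.log (a (ix i)) - Real.log (a (ix (i + 1)))) ξ =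
          Real.log (a (ix 0)) - Real.log (a (ix j))) ∨
      Real.log (a (ix 0)) - ∑ i ∈ Finset.range j, (Nb b (Ini n (i + 1)) δ).indicator
        (fun _ => Real.log (a (ix i)) - Real.log (a (ix (i + 1)))) ξ + Real.log (δ / c) ≤
          Real.log h := by
  induction j with
  | zero => exact Or.inl ⟨fun l hl => absurd (Ini_mem.1 hl) (Nat.not_lt_zero _), by simp⟩
  | succ j ih =>
    rw [Finset.sum_range_succ]
    rcases ih (Nat.le_of_succ_le hj) with ⟨h1, h2⟩ | h1
    · by_cases h3 : ξ ∈ Nb b (Ini n (j + 1)) δ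
      · exact Or.inl ⟨h3, by rw [indicator_of_mem h3, h2]; ring⟩
      · refine Or.inr ?_
        rw [indicator_of_notMem h3, h2]
        simp only [Nb, mem_ofPred_eq, not_forall, not_le] at h3
        obtain ⟨l, hl, h4⟩ := h3
        have h5 : l = ix j := by
          refine Fin.ext ?_
          rw [hix j hj]
          have := Ini_mem.1 hl
          by_contra h6
          exact (h1 l (Ini_mem.2 (by omega))).not_gt h4
        have h7 : a l * (δ / c) ≤ h := by
          rw [← mul_div_assoc, div_le_iff₀' hc]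
          exact (mul_le_mul_of_nonneg_left h4.le (ha l).le).trans (hb l)
        have h8 := Real.log_le_log (mul_pos (ha l) (div_pos hδ hc)) h7
        rw [Real.log_mul (ha l).ne' (div_pos hδ hc).ne', h5] at h8
        linarith only [h8]
    · have : 0 ≤ (Nb b (Ini n (j + 1)) δ).indicator
          (fun _ => Real.log (a (ix j)) - Real.log (a (ix (j + 1)))) ξ :=
        indicator_nonneg (fun _ _ => sub_nonneg.2 (Real.log_le_log (ha _) (hm j))) ξ
      exact Or.inr (by linarith only [h1, this])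

theorem coer (hp : 1 < p) (hpn : p < n) (hf : NoFix G) [IsFiniteMeasure μ]
    (h0 : μ ≠ 0) (hS : SubConc G p μ) (hU : DU G p μ) {θ : ℝ} (hθ : 0 < θ) :
    ∃ η : ℝ, 0 < η ∧ ∀ K : Set (Eu n), InvC G K → Body0 K → (∃ y ∈ K, 1 ≤ ‖y‖) →
      Phi p μ K < θ ∨ ∃ I : Finset (Fin n), (n : ℝ) - p ≤ I.card ∧ ∃ b ∈ FrSet G I,
        ∀ l ∈ I, ∀ ξ, η * |⟪ξ, b l⟫| ≤ supp K ξ := by
  classical
  obtain ⟨c, hc, hfr⟩ := frame hf
  obtain ⟨δ, hδ, hS'⟩ := unifS hpn hS
  obtain ⟨C, s, -, hT⟩ := tail hU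
  have : NeZero μ := ⟨h0⟩
  have hM : 0 < μ.real univ := measureReal_univ_pos
  set M := μ.real univ with hMdef
  have hq : (0 : ℝ) < n - p := sub_pos.2 hpn
  have hc0 : 0 < c := one_pos.trans_le hc
  have hp0 : 0 ≤ p := by linarith only [hp]
  have hm1 : (⌊p⌋₊ : ℝ) ≤ p := Nat.floor_le hp0
  have hm2 : p < ⌊p⌋₊ + 1 := Nat.lt_floor_add_one p
  have hm3 : ⌊p⌋₊ < n := by exact_mod_cast hm1.trans_lt hpn
  obtain ⟨e, he⟩ : ∃ e, n = e + 1 + ⌊p⌋₊ := ⟨n - 1 - ⌊p⌋₊, by omega⟩
  have he' : (n : ℝ) = e + 1 + ⌊p⌋₊ := by exact_mod_cast he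
  have hn0 : (0 : ℝ) < n := by linarith only [hp, hpn]
  set κ := |Real.log (δ / c)| + |Real.log (n * c)| with hκ
  set A := (n * Real.log (4 * c) - p * Real.log c) / (n - p) + κ + C / M with hA
  obtain ⟨η, hη, hη2⟩ := AMax_small (Real.exp (A + δ / (n - p) * Real.log (n * c * c)))
    (div_pos hδ hq) hθ
  refine ⟨η, hη, fun K hK hB ⟨y, hy, hy1⟩ => ?_⟩
  obtain ⟨ρ, R, hρ, -, hρK, -⟩ := hB.exists_radii
  obtain ⟨b, a, hb, han, ha, hbox, hlow, hgap⟩ := hfr K hK ρ hρ hρK
  let ix : ℕ → Fin n := fun i => ⟨min i (n - 1), by omega⟩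
  have hix : ∀ i < n, (ix i : ℕ) = i := fun i hi => by
    change min i (n - 1) = i
    omega
  have hmono : ∀ i j, i ≤ j → a (ix j) ≤ a (ix i) := fun i j h =>
    han (show ix i ≤ ix j from min_le_min_right _ h)
  have hix' : ∀ l : Fin n, ix l = l := fun l => Fin.ext (hix l l.2)
  let J : Finset (Fin n) := Finset.univ.filter fun l => a (ix e) ≤ a l
  have hJ : ∀ l, l ∈ J ↔ a (ix e) ≤ a l := fun l => by simp [J]
  have hJc : (n : ℝ) - p ≤ J.card := by
    have h1 : Ini n (e + 1) ⊆ J := fun l hl => (hJ l).2 (by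
      rw [← hix' l]
      exact hmono _ _ (Nat.le_of_lt_succ (Ini_mem.1 hl)))
    have h2 := Finset.card_le_card h1
    rw [Ini_card (by omega)] at h2
    have h3 : ((e + 1 : ℕ) : ℝ) ≤ J.card := by exact_mod_cast h2
    push_cast at h3
    linarith only [h3, he', hm1]
  have hJg : b ∈ FrSet G J := ⟨hb, fun g hg l hl j hj => hgap l j (fun h => hj (by
    rw [hJ, ← h]
    exact (hJ l).1 hl)) g hg⟩
  rcases le_or_gt (c * η) (a (ix e)) with hcase | hcase
  · refine Or.inr ⟨J, hJc, b, hJg, fun l hl ξ => le_of_mul_le_mul_left ?_ hc0⟩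
    rw [← mul_assoc]
    exact (mul_le_mul_of_nonneg_right (hcase.trans ((hJ l).1 hl)) (abs_nonneg _)).trans (hlow ξ l)
  refine Or.inl (lt_of_le_of_lt ?_ hη2)
  set l : ℕ → ℝ := fun i => Real.log (a (ix i)) with hl
  have hL := W_inv hb hJg.2
  have hk : (Module.finrank ℝ (W b J) : ℝ) ≤ p := by
    have h1 : (J.card : ℝ) + Module.finrank ℝ (W b J) = n := by exact_mod_cast W_rank hb J
    linarith only [h1, hJc]
  obtain ⟨t1, t2⟩ := hT _ hL hk 1 one_pos
  rw [Real.one_rpow, mul_one] at t2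
  have hint : ∀ i, Integrable ((Nb b (Ini n (i + 1)) δ).indicator fun _ => l i - l (i + 1)) μ :=
    fun i => (integrable_const _).indicator (Nb_meas _ _ _)
  have hent : M * (l 0 - κ) - ∑ i ∈ Finset.range e, μ.real (Nb b (Ini n (i + 1)) δ) *
      (l i - l (i + 1)) - C ≤ ∫ ξ : Sph n, Real.log (supp K ξ) ∂μ := by
    have h1 : ∫ ξ : Sph n, (l 0 - κ) - ∑ i ∈ Finset.range e, (Nb b (Ini n (i + 1)) δ).indicator
        (fun _ => l i - l (i + 1)) ξ - tailF (W b J) 1 ξ ∂μ ≤
          ∫ ξ : Sph n, Real.log (supp K ξ) ∂μ := by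
      refine integral_mono_ae (((integrable_const _).sub
        (integrable_finsetSum _ fun i _ => hint i)).sub t1) (amain_int (amain_log_cont hB)) ?_
      filter_upwards [null hU hL hk] with ξ hξ
      have h2 : 0 ≤ tailF (W b J) 1 ξ := le_max_left _ _
      have h3 := neg_abs_le (Real.log (δ / c))
      have h4 := le_abs_self (Real.log (n * c))
      rcases pointwise hix ha (fun i => hmono _ _ (Nat.le_succ i)) hc0 hδ ξ (hlow ξ) e (by omega)
        with ⟨-, h5⟩ | h5
      · have h6 : a (ix e) * infDist (ξ : Eu n) (W b J : Set (Eu n)) ≤ n * c * supp K ξ := by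
          refine (mul_le_mul_of_nonneg_left (W_dist hb J ξ) (ha _).le).trans ?_
          rw [Finset.mul_sum]
          refine (Finset.sum_le_card_nsmul _ _ (c * supp K ξ) fun j hj => ?_).trans ?_
          · exact (mul_le_mul_of_nonneg_right ((hJ j).1 hj) (abs_nonneg _)).trans (hlow ξ j)
          · rw [nsmul_eq_mul, mul_assoc]
            refine mul_le_mul_of_nonneg_right ?_ (mul_nonneg hc0.le (hK.supp_nonneg hf _))
            exact_mod_cast (Finset.card_le_univ J).trans_eq (Fintype.card_fin n)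
        have h7 := Real.log_le_log (mul_pos (ha _) hξ) h6
        rw [Real.log_mul (ha _).ne' hξ.ne', Real.log_mul (mul_pos hn0 hc0).ne'
          (hB.supp_pos (amain_ne ξ)).ne'] at h7
        have h8 : -Real.log (infDist (ξ : Eu n) (W b J : Set (Eu n))) ≤ tailF (W b J) 1 ξ := by
          rw [← Real.log_inv, ← one_div]
          exact le_max_right _ _
        simp only [hl]
        linarith only [h5, h7, h8, h4, hκ, abs_nonneg (Real.log (δ / c))]
      · simp only [hl]
        linarith only [h5, h2, h3, hκ, abs_nonneg (Real.log (n * c))]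
    rw [integral_sub (by exact (integrable_const _).sub (integrable_finsetSum _ fun i _ => hint i))
      t1, integral_sub (integrable_const _) (integrable_finsetSum _ fun i _ => hint i),
      integral_const, smul_eq_mul, integral_finsetSum _ fun i _ => hint i] at h1
    simp only [integral_indicator_const _ (Nb_meas _ _ _), smul_eq_mul] at h1
    linarith only [h1, t2]
  have hterm : ∀ i ∈ Finset.range e, (n - p) * (μ.real (Nb b (Ini n (i + 1)) δ) *
      (l i - l (i + 1))) ≤ M * ((n - p - (i + 1 : ℕ)) * (l i - l (i + 1)) -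
        δ * (l i - l (i + 1))) := fun i hi => by
    have hi' := Finset.mem_range.1 hi
    rcases (hmono _ _ (Nat.le_succ i)).eq_or_lt with h1 | h1
    · simp only [hl, h1, sub_self, mul_zero, le_refl]
    have h2 : 0 ≤ l i - l (i + 1) := sub_nonneg.2 (Real.log_le_log (ha _) h1.le)
    have h3 : (Ini n (i + 1)).card = i + 1 := Ini_card (by omega)
    have h4 := hS' (Ini n (i + 1)) (Finset.card_pos.1 (by omega)) (by
      have : ((i + 1 : ℕ) : ℝ) ≤ e := by exact_mod_cast hi'
      rw [h3]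
      linarith only [this, he', hm2]) b ⟨hb, fun g hg u hu j hj => hgap u j (ne_of_gt (by
        have a1 := hmono _ _ (Nat.le_of_lt_succ (Ini_mem.1 hu))
        have a2 := hmono _ _ (not_lt.1 fun h => hj (Ini_mem.2 h))
        rw [hix'] at a1 a2
        exact a2.trans_lt (h1.trans_le a1))) g hg⟩
    rw [h3] at h4
    have h5 := mul_le_mul_of_nonneg_right h4 h2
    linarith only [h5]
  have hsum := Finset.sum_le_sum hterm
  rw [← Finset.mul_sum, ← Finset.mul_sum, Finset.sum_sub_distrib, ← Finset.mul_sum,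
    Finset.sum_range_sub'] at hsum
  have hcp := cap_pos hp hpn hK.1.isBounded hB.1.2.2
  have hcap := cap_box_le hp hb (s := fun j => c * max (a j) (a (ix e))) (mul_pos hc0 (ha (ix e)))
    (fun j => mul_le_mul_of_nonneg_left (le_max_right _ _) hc0.le) hK.1 ⟨y, hy⟩
    fun z hz j => (hbox z hz j).trans (mul_le_mul_of_nonneg_left (le_max_left _ _) hc0.le)
  have hmx : ∀ j, 0 < max (a j) (a (ix e)) := fun j => (ha j).trans_le (le_max_left _ _)
  have hlog := Real.log_le_log hcp hcap
  have hs1 : ∑ j, Real.log (max (a j) (a (ix e))) =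
      ∑ i ∈ Finset.range (e + 1), l i + ⌊p⌋₊ * l e := by
    have h1 : ∑ j, Real.log (max (a j) (a (ix e))) =
        ∑ i ∈ Finset.range n, Real.log (max (a (ix i)) (a (ix e))) := by
      rw [← Fin.sum_univ_eq_sum_range (fun i => Real.log (max (a (ix i)) (a (ix e)))) n]
      simp only [hix']
    have h2 : Finset.range n = Finset.range (e + 1 + ⌊p⌋₊) := congrArg _ he
    rw [h1, h2, Finset.sum_range_add]
    congr 1
    · refine Finset.sum_congr rfl fun i hi => ?_
      rw [max_eq_left (hmono _ _ (Nat.le_of_lt_succ (Finset.mem_range.1 hi)))]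
    · rw [Finset.sum_congr rfl fun i _ => by rw [max_eq_right (hmono e (e + 1 + i) (by omega))]]
      simp [hl]
  rw [Real.log_mul (Real.rpow_pos_of_pos (inv_pos.2 (mul_pos hc0 (ha _))) _).ne'
    (Finset.prod_pos fun j _ => by have := hmx j; positivity).ne',
    Real.log_rpow (inv_pos.2 (mul_pos hc0 (ha _))), Real.log_inv,
    Real.log_mul hc0.ne' (ha _).ne', Real.log_prod fun j _ => by have := hmx j; positivity] at hlog
  have hs2 : ∀ j, Real.log (4 * (c * max (a j) (a (ix e)))) =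
      Real.log (4 * c) + Real.log (max (a j) (a (ix e))) := fun j => by
    rw [← mul_assoc, Real.log_mul (by positivity) (hmx j).ne']
  simp only [hs2, Finset.sum_add_distrib, hs1, Finset.sum_const, Finset.card_univ,
    Fintype.card_fin, nsmul_eq_mul] at hlog
  have hab := abel (n - p) l e
  have hy2 : 1 ≤ n * c * a (ix 0) := by
    obtain ⟨B, rfl⟩ := onb hb
    refine hy1.trans ?_
    rw [← B.sum_repr' y]
    refine (norm_sum_le _ _).trans ((Finset.sum_le_card_nsmul _ _ (c * a (ix 0)) fun j _ =>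
      ?_).trans (by simp [mul_assoc]))
    rw [norm_smul, hb.1 j, mul_one, Real.norm_eq_abs, real_inner_comm]
    refine (hbox y hy j).trans (mul_le_mul_of_nonneg_left ?_ hc0.le)
    rw [← hix' j]
    exact hmono _ _ (Nat.zero_le _)
  have hy3 := Real.log_le_log one_pos hy2
  rw [Real.log_one, Real.log_mul (mul_pos hn0 hc0).ne' (ha _).ne'] at hy3
  have hy4 := Real.log_le_log (ha _) hcase.le
  rw [Real.log_mul hc0.ne' hη.ne'] at hy4
  rw [Phi, Real.rpow_def_of_pos hcp, Real.rpow_def_of_pos hη, ← Real.exp_add, ← Real.exp_add,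
    Real.exp_le_exp, Real.log_mul (mul_pos hn0 hc0).ne' hc0.ne']
  have hy5 : -(l 0 - l e) ≤ Real.log (n * c) + Real.log c + Real.log η := by
    simp only [hl]
    linarith only [hy3, hy4]
  have hy6 := mul_le_mul_of_nonneg_left hy5 hδ.le
  have hle : l e = Real.log (a (ix e)) := rfl
  rw [← hle] at hlog
  generalize ∫ ξ : Sph n, Real.log (supp K ξ) ∂μ = X at hent ⊢
  generalize ∑ i ∈ Finset.range e, μ.real (Nb b (Ini n (i + 1)) δ) * (l i - l (i + 1)) = Y
    at hent hsum
  generalize ∑ i ∈ Finset.range e, (n - p - (i + 1 : ℕ)) * (l i - l (i + 1)) = Z at hsum hab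
  generalize ∑ i ∈ Finset.range (e + 1), l i = U at hab hlog
  have f1 : Real.log (cap p K) ≤ n * Real.log (4 * c) - p * Real.log c + ((n - p) * l 0 - Z) := by
    rw [hab]
    have : (n - p - (e + 1)) * l e = ⌊p⌋₊ * l e - p * l e := by
      rw [he']
      ring
    linarith only [hlog, this]
  have f2 : -X / M ≤ κ + C / M - l 0 + (Z - δ * (l 0 - l e)) / (n - p) := by
    have g1 : Y / M ≤ (Z - δ * (l 0 - l e)) / (n - p) := by
      rw [div_le_div_iff₀ hM hq]
      linarith only [hsum]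
    have g2 : -X / M ≤ (Y + C - M * (l 0 - κ)) / M :=
      div_le_div_of_nonneg_right (by linarith only [hent]) hM.le
    rw [sub_div, add_div, mul_div_cancel_left₀ _ hM.ne'] at g2
    linarith only [g1, g2]
  have f3 := div_le_div_of_nonneg_right f1 hq.le
  have f4 := div_le_div_of_nonneg_right hy6 hq.le
  rw [add_div, sub_div ((n - p) * l 0), mul_div_cancel_left₀ _ hq.ne'] at f3
  rw [mul_one_div, hA]
  have f5 : δ / (n - p) * (Real.log (n * c) + Real.log c) + Real.log η * (δ / (n - p)) =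
      δ * (Real.log (n * c) + Real.log c + Real.log η) / (n - p) := by ring
  have f6 : (Z - δ * (l 0 - l e)) / (n - p) = Z / (n - p) + δ * -(l 0 - l e) / (n - p) := by ring
  linarith only [f2, f3, f4, f5, f6]

end Pool.Agent.Work.MP_f7e2e5_gt.Sy
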