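import Pool.Agent.Work.MP_f7e2e5_gt.Defs

/-! Definitions used in the statement on measures with a group of symmetries. -/

open MeasureTheory Set Metric Filter Topology

noncomputable section

namespace Pool.Agent.Work.MP_f7e2e5_gt.Sy

variable {n : ℕ}

/-- Linear isometries of Euclidean space. -/
abbrev Iso (n : ℕ) := Eu n ≃ₗᵢ[ℝ] Eu n

/-- The action of a linear isometry on the unit sphere. -/
def sphMap (g : Iso n) (ξ : Sph n) : Sph n := ⟨g ξ, by simp⟩

/-- `G` fixes no nonzero vector. -/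
def NoFix (G : Subgroup (Iso n)) : Prop := ∀ v : Eu n, (∀ g ∈ G, g v = v) → v = 0

/-- The measure `μ` is invariant under `G`. -/
def InvMeas (G : Subgroup (Iso n)) (μ : Measure (Sph n)) : Prop := ∀ g ∈ G, μ.map (sphMap g) = μ

/-- The set `K` is invariant under `G`. -/
def InvSet (G : Subgroup (Iso n)) (K : Set (Eu n)) : Prop := ∀ g ∈ G, g '' K = K

/-- The subspace `L` is invariant under `G`. -/
def Inv (G : Subgroup (Iso n)) (L : Submodule ℝ (Eu n)) : Prop := ∀ g ∈ G, ∀ x ∈ L, g x ∈ L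

/-- Subspace concentration: `(n - p) μ(L) < (dim L - p) |μ|` for the proper invariant subspaces of
dimension `> p`. -/
def SubConc (G : Subgroup (Iso n)) (p : ℝ) (μ : Measure (Sph n)) : Prop :=
  ∀ L : Submodule ℝ (Eu n), Inv G L → L ≠ ⊤ → p < Module.finrank ℝ L →
    (n - p) * μ.real {ξ | (ξ : Eu n) ∈ L} < (Module.finrank ℝ L - p) * μ.real univ

/-- Uniform power decay of `μ` near the nonzero invariant subspaces of dimension `≤ p`. -/
def DecayUnif (G : Subgroup (Iso n)) (p : ℝ) (μ : Measure (Sph n)) : Prop :=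
  ∃ C s : ℝ, 0 < s ∧ ∀ L : Submodule ℝ (Eu n), Inv G L → L ≠ ⊥ → (Module.finrank ℝ L : ℝ) ≤ p →
    ∀ r : ℝ, 0 < r → μ.real {ξ | infDist (ξ : Eu n) (L : Set (Eu n)) ≤ r} ≤ C * r ^ s

/-- `μ` of the `r`-neighbourhood of a nonzero invariant subspace of dimension `k < p` is
`o(r^((p-k)/(p-1)))`. -/
def DecayInv (G : Subgroup (Iso n)) (p : ℝ) (μ : Measure (Sph n)) : Prop :=
  ∀ L : Submodule ℝ (Eu n), Inv G L → L ≠ ⊥ → (Module.finrank ℝ L : ℝ) < p →
    Tendsto (fun r : ℝ => μ.real {ξ | infDist (ξ : Eu n) (L : Set (Eu n)) ≤ r} /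
      r ^ ((p - Module.finrank ℝ L) / (p - 1))) (𝓝[>] 0) (𝓝 0)

end Pool.Agent.Work.MP_f7e2e5_gt.Sy
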