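import Pool.Agent.Work.MP_f7e2e5_gt.Sy.Max

open MeasureTheory Set Metric Filter Topology
open scoped RealInnerProductSpace Pointwise NNReal

noncomputable section

namespace Pool.Agent.Work.MP_f7e2e5_gt.Sy

variable {n : ℕ} {p : ℝ} {G : Subgroup (Iso n)} {μ : Measure (Sph n)}

/-- An invariant convex set contains a disc of its span. -/
theorem disc (hf : NoFix G) {K : Set (Eu n)} (hK : InvC G K) :
    ∃ ρ : ℝ, 0 < ρ ∧ ∀ x ∈ Submodule.span ℝ K, ‖x‖ ≤ ρ → x ∈ K := by
  have h0 := hK.zero hf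
  have hN : (0 : ℝ) < n + 1 := by positivity
  set S : Set (Submodule.span ℝ K) := Subtype.val ⁻¹' K with hS
  have hSc : Convex ℝ S := hK.2.1.linear_preimage (Submodule.span ℝ K).subtype
  have hS0 : (0 : Submodule.span ℝ K) ∈ S := h0
  have h1 : affineSpan ℝ S = ⊤ := by
    rw [AffineSubspace.affineSpan_eq_top_iff_vectorSpan_eq_top_of_nonempty ℝ _ _ ⟨0, hS0⟩,
      vectorSpan_eq_span_vsub_set_right ℝ hS0]
    simp only [vsub_eq_sub, sub_zero, image_id']
    exact Submodule.span_span_coe_preimage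
  obtain ⟨x, hx⟩ := hSc.interior_nonempty_iff_affineSpan_eq_top.2 h1
  have h2 : -(((n : ℝ) + 1)⁻¹ • x) ∈ S := by
    have h3 : x ∈ S := interior_subset hx
    exact hK.neg hf h3
  have h4 := hSc.combo_interior_self_mem_interior hx h2 (a := 1 / (n + 2))
    (b := (n + 1) / (n + 2)) (by positivity) (by positivity)
    (by field_simp; ring)
  rw [smul_neg, smul_smul, show ((n : ℝ) + 1) / (n + 2) * ((n : ℝ) + 1)⁻¹ = 1 / (n + 2) by
    field_simp, add_neg_cancel,
    mem_interior_iff_mem_nhds] at h4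
  obtain ⟨ρ, hρ, h5⟩ := nhds_basis_closedBall.mem_iff.1 h4
  refine ⟨ρ, hρ, fun y hy hn => h5 (a := ⟨y, hy⟩) ?_⟩
  rw [mem_closedBall, dist_zero_right]
  exact hn

theorem thick {K : Set (Eu n)} (hK : InvC G K) {δ : ℝ} (hδ : 0 < δ) :
    InvC G (convexHull ℝ (K ∪ closedBall 0 δ)) ∧ Body0 (convexHull ℝ (K ∪ closedBall 0 δ)) := by
  obtain ⟨h1, h2, h3, x, hx, hx0⟩ := hK
  have hc := isCompact_convexHull_union h1 (isCompact_closedBall (0 : Eu n) δ) h2
    (convex_closedBall _ _)
  have h0 : (0 : Eu n) ∈ interior (convexHull ℝ (K ∪ closedBall 0 δ)) :=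
    mem_interior_iff_mem_nhds.2 (mem_of_superset (closedBall_mem_nhds 0 hδ)
      (subset_union_right.trans (subset_convexHull _ _)))
  refine ⟨⟨hc, convex_convexHull _ _, fun g hg => ?_, x, subset_convexHull _ _ (Or.inl hx), hx0⟩,
    ⟨hc, convex_convexHull _ _, 0, h0⟩, h0⟩
  refine convexHull_min (t := g ⁻¹' convexHull ℝ (K ∪ closedBall 0 δ)) ?_
    ((convex_convexHull _ _).linear_preimage g.toLinearEquiv.toLinearMap)
  rintro y (hy | hy)
  · exact subset_convexHull ℝ _ (Or.inl (h3 g hg y hy))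
  · exact subset_convexHull ℝ _ (Or.inr (by simpa using hy))

theorem orth_inv {K : Set (Eu n)} (hK : InvC G K) : Inv G (Submodule.span ℝ K)ᗮ := by
  intro g hg x hx
  rw [Submodule.mem_orthogonal'] at hx ⊢
  intro u hu
  have : Submodule.span ℝ K ≤
      LinearMap.ker ((innerSL ℝ (g x) : Eu n →L[ℝ] ℝ) : Eu n →ₗ[ℝ] ℝ) := by
    rw [Submodule.span_le]
    intro y hy
    change ⟪g x, y⟫ = 0
    rw [inner_iso]
    exact hx _ (Submodule.subset_span (hK.2.2.1 _ (G.inv_mem hg) y hy))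
  exact this hu

/-- The loss in the entropy term. -/
theorem loss (hp : 1 < p) [IsFiniteMeasure μ] (h1 : DU G p μ) (h2 : DecayInv G p μ)
    (L : Submodule ℝ (Eu n)) (hL : L ≠ ⊥) (hL' : Inv G L)
    (hk : (Module.finrank ℝ L : ℝ) < p) {K : Set (Eu n)} (hK : InvC G K) {η : ℝ} (hη' : 0 < η)
    (hg : Good G p η K) {ρ : ℝ} (hρ : 0 < ρ)
    (hρK : ∀ x, L.starProjection x = 0 → ‖x‖ ≤ ρ → x ∈ K) {ε : ℝ} (hε : 0 < ε) :
    ∃ δ0 : ℝ, 0 < δ0 ∧ ∀ δ : ℝ, 0 < δ → δ ≤ δ0 →
      ∫ ξ : Sph n, Real.log (supp (convexHull ℝ (K ∪ closedBall 0 δ)) ξ) ∂μ ≤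
        ∫ ξ : Sph n, Real.log (supp K ξ) ∂μ + ε * δ ^ ((p - Module.finrank ℝ L) / (p - 1)) := by
  have hβ := ADeg_k hp hk
  have h3 := h2 L hL' hL hk
  set β : ℝ := (p - Module.finrank ℝ L) / (p - 1) with hβdef
  have hη : 0 < ε * β * ρ ^ β := by positivity
  obtain ⟨r0, hr0, hr⟩ := (nhdsGT_basis (0 : ℝ)).eventually_iff.1 (h3.eventually (gt_mem_nhds hη))
  refine ⟨ρ * r0 / 2, by positivity, fun δ hδ hδ1 => ?_⟩
  have hi1 := hg.int h1 hη'
  have hi2 := amain_int (μ := μ) (amain_log_cont (thick hK hδ).2)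
  have hs : ∀ ξ : Sph n, supp (convexHull ℝ (K ∪ closedBall 0 δ)) ξ = max (supp K ξ) δ := by
    intro ξ
    rw [supp_convexHull_union hK.1 (isCompact_closedBall _ _) hg.2.1
      (nonempty_closedBall.2 hδ.le), supp_closedBall _ hδ.le, inner_zero_left, zero_add,
      norm_eq_of_mem_sphere, mul_one]
  simp only [hs] at hi2 ⊢
  rw [← sub_le_iff_le_add', ← integral_sub hi2 hi1,
    (hi2.sub' hi1).integral_eq_integral_meas_lt (by
      filter_upwards [hg.pos h1 hη'] with ξ hξ
      exact sub_nonneg.2 (Real.log_le_log hξ (le_max_left _ _)))]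
  have hint := (integrableOn_exp_mul_Ioi (neg_lt_zero.2 hβ) 0).const_mul (ε * β * δ ^ β)
  refine (integral_mono_of_nonneg (Eventually.of_forall fun t => measureReal_nonneg) hint ?_).trans
    (le_of_eq ?_)
  · refine (ae_restrict_iff' measurableSet_Ioi).2 (Eventually.of_forall fun t ht => ?_)
    have ht0 : 0 < t := ht
    have he : Real.exp (-t) < 1 := Real.exp_lt_one_iff.2 (by linarith only [ht0])
    have he0 := Real.exp_pos (-t)
    have hr1 : 0 < δ * Real.exp (-t) / ρ := by positivity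
    have hr2 : δ * Real.exp (-t) / ρ < r0 := by
      rw [div_lt_iff₀ hρ]
      linarith only [hδ, hδ1, mul_lt_mul_of_pos_left he hδ]
    have h4 := hr ⟨hr1, hr2⟩
    rw [div_lt_iff₀ (Real.rpow_pos_of_pos hr1 _)] at h4
    have h5 : ε * β * ρ ^ β * (δ * Real.exp (-t) / ρ) ^ β = ε * β * δ ^ β * Real.exp (-β * t) := by
      rw [Real.div_rpow (by positivity) hρ.le, Real.mul_rpow hδ.le he0.le, ← Real.exp_mul]
      have := (Real.rpow_pos_of_pos hρ β).ne'
      field_simp
    refine le_trans (measureReal_mono fun ξ hξ => ?_) (h4.le.trans h5.le)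
    have h6 : t < Real.log (max (supp K ξ) δ) - Real.log (supp K ξ) := hξ
    have h7 := ADeg_supp L hK.1 hρ hρK ξ
    change infDist (ξ : Eu n) (L : Set (Eu n)) ≤ _
    rw [le_div_iff₀' hρ]
    refine h7.trans ?_
    by_contra h8
    push Not at h8
    have h9 : 0 < supp K ξ := lt_trans (by positivity) h8
    rcases le_total (supp K ξ) δ with h | h
    · rw [max_eq_right h] at h6
      have := Real.log_lt_log (by positivity) h8
      rw [Real.log_mul hδ.ne' he0.ne', Real.log_exp] at this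
      linarith only [h6, this]
    · rw [max_eq_left h, sub_self] at h6
      linarith only [ht0, h6]
  · rw [integral_const_mul, integral_exp_mul_Ioi (neg_lt_zero.2 hβ)]
    have := hβ.ne'
    simp only [mul_zero, Real.exp_zero]
    field_simp

/-- A maximiser has interior points. -/
theorem max_body (hp : 1 < p) (hpn : p < n) (hf : NoFix G) [IsFiniteMeasure μ]
    (h0 : μ ≠ 0) (h1 : DU G p μ) (h2 : DecayInv G p μ) {K : Set (Eu n)} (hK : InvC G K) {η : ℝ}
    (hη : 0 < η) (hG : Good G p η K) (hpos : 0 < cap p K)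
    (hmax : ∀ K', InvC G K' → Body0 K' → Phi p μ K' ≤ Phi p μ K) : Body0 K := by
  obtain ⟨ρ, hρ, hρK⟩ := disc hf hK
  by_cases hF : Submodule.span ℝ K = ⊤
  · have : (0 : Eu n) ∈ interior K := by
      rw [mem_interior_iff_mem_nhds]
      refine mem_of_superset (closedBall_mem_nhds 0 hρ) fun x hx => hρK x (by rw [hF]; trivial) ?_
      rwa [mem_closedBall, dist_zero_right] at hx
    exact ⟨⟨hK.1, hK.2.1, 0, this⟩, this⟩
  exfalso
  have hL' := orth_inv hK
  set L := (Submodule.span ℝ K)ᗮ with hLdef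
  have hL : L ≠ ⊥ := fun h => hF (Submodule.orthogonal_eq_bot_iff.1 h)
  have hP : ∀ x, L.starProjection x = 0 ↔ x ∈ Submodule.span ℝ K := fun x => by
    rw [L.starProjection_apply_eq_zero_iff, hLdef, Submodule.orthogonal_orthogonal]
  have hKL : ∀ x ∈ K, L.starProjection x = 0 := fun x hx => (hP x).2 (Submodule.subset_span hx)
  have hρK' : ∀ x, L.starProjection x = 0 → ‖x‖ ≤ ρ → x ∈ K := fun x hx => hρK x ((hP x).1 hx)
  rcases le_or_gt p (Module.finrank ℝ L) with hk | hk
  · exact hpos.ne' (cap_eq_zero hp L hk hK.1.isBounded hKL)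
  obtain ⟨c, δ0, hc, hδ0, hg⟩ := gain_deg hp hpn L hL hk hK.1 hK.2.1 hKL hρ hρK'
  have hm : 0 < μ.real univ :=
    ENNReal.toReal_pos (Measure.measure_univ_ne_zero.2 h0) (measure_ne_top _ _)
  have hq : 0 < (n : ℝ) - p := sub_pos.2 hpn
  obtain ⟨δ1, hδ1, hl⟩ := loss hp h1 h2 L hL hL' hk hK hη hG hρ hρK'
    (ε := c / (cap p K + c) * μ.real univ / (2 * (n - p))) (by positivity)
  have hβ := ADeg_k hp hk
  set δ := min 1 (min δ0 δ1) with hδdef
  have hδ : 0 < δ := lt_min one_pos (lt_min hδ0 hδ1)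
  have g1 := hg δ hδ ((min_le_right _ _).trans (min_le_left _ _))
  have g2 := hl δ hδ ((min_le_right _ _).trans (min_le_right _ _))
  have g3 := hmax _ (thick hK hδ).1 (thick hK hδ).2
  have hx0 : 0 < δ ^ ((p - Module.finrank ℝ L) / (p - 1)) := Real.rpow_pos_of_pos hδ _
  have hx1 : δ ^ ((p - Module.finrank ℝ L) / (p - 1)) ≤ 1 :=
    Real.rpow_le_one hδ.le (min_le_left _ _) hβ.le
  unfold Phi at g3
  generalize δ ^ ((p - Module.finrank ℝ L) / (p - 1)) = x at *
  generalize cap p (convexHull ℝ (K ∪ closedBall 0 δ)) = C' at *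
  generalize ∫ ξ : Sph n, Real.log (supp (convexHull ℝ (K ∪ closedBall 0 δ)) ξ) ∂μ = A' at *
  generalize ∫ ξ : Sph n, Real.log (supp K ξ) ∂μ = A at *
  generalize cap p K = C at *
  generalize μ.real univ = m at *
  generalize (n : ℝ) - p = q at *
  have hcx : 0 < C + c * x := by positivity
  have hC' : 0 < C' := hcx.trans_le g1
  rw [Real.rpow_def_of_pos hC', Real.rpow_def_of_pos hpos, ← Real.exp_add, ← Real.exp_add,
    Real.exp_le_exp] at g3
  have g4 : c / (C + c) * x ≤ Real.log C' - Real.log C := by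
    have a1 := Real.one_sub_inv_le_log_of_pos (div_pos hcx hpos)
    rw [Real.log_div hcx.ne' hpos.ne', inv_div] at a1
    have a2 := Real.log_le_log hcx g1
    have a3 : c / (C + c) * x ≤ 1 - C / (C + c * x) := by
      rw [one_sub_div hcx.ne', add_sub_cancel_left, div_mul_eq_mul_div]
      exact div_le_div_of_nonneg_left (by positivity) hcx
        (by linarith only [mul_le_mul_of_nonneg_left hx1 hc.le])
    linarith only [a1, a2, a3]
  have g5 : (A' - A) / m ≤ c / (C + c) * x / (2 * q) := by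
    rw [div_le_iff₀ hm]
    calc A' - A ≤ c / (C + c) * m / (2 * q) * x := by linarith only [g2]
      _ = _ := by ring
  have g6 : (Real.log C' - Real.log C) / q ≤ (A' - A) / m := by
    calc (Real.log C' - Real.log C) / q
        = Real.log C' * (1 / q) + -A' / m - (Real.log C * (1 / q) + -A / m) + (A' - A) / m := by
          ring
      _ ≤ _ := by linarith only [g3]
  have g7 : c / (C + c) * x / q ≤ (Real.log C' - Real.log C) / q :=
    div_le_div_of_nonneg_right g4 hq.le
  have g8 : c / (C + c) * x / (2 * q) < c / (C + c) * x / q :=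
    div_lt_div_of_pos_left (by positivity) hq (by linarith only [hq])
  linarith only [g5, g6, g7, g8]

end Pool.Agent.Work.MP_f7e2e5_gt.Sy
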