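import Pool.Agent.Work.MP_f7e2e5_gt.Sy.Frame

open MeasureTheory Set Metric Filter Topology
open scoped RealInnerProductSpace Pointwise NNReal

noncomputable section

namespace Pool.Agent.Work.MP_f7e2e5_gt.Sy

variable {n : ℕ} {p : ℝ} {G : Subgroup (Iso n)} {μ : Measure (Sph n)}

/-- Uniform decay, the zero subspace included. -/
def DU (G : Subgroup (Iso n)) (p : ℝ) (μ : Measure (Sph n)) : Prop :=
  ∃ C s : ℝ, 0 < s ∧ ∀ L : Submodule ℝ (Eu n), Inv G L → (Module.finrank ℝ L : ℝ) ≤ p →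
    ∀ r : ℝ, 0 < r → μ.real {ξ | infDist (ξ : Eu n) (L : Set (Eu n)) ≤ r} ≤ C * r ^ s

theorem DU_of [IsFiniteMeasure μ] (h : DecayUnif G p μ) : DU G p μ := by
  obtain ⟨C, s, hs, h⟩ := h
  have h0 : 0 ≤ max C (μ.real univ) := measureReal_nonneg.trans (le_max_right _ _)
  refine ⟨max C (μ.real univ), s, hs, fun L hL hk r hr => ?_⟩
  by_cases hb : L = ⊥
  · subst hb
    rcases lt_or_ge r 1 with h1 | h1
    · have : {ξ : Sph n | infDist (ξ : Eu n) ((⊥ : Submodule ℝ (Eu n)) : Set (Eu n)) ≤ r} = ∅ := by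
        ext ξ
        simp [h1]
      rw [this, measureReal_empty]
      positivity
    · exact ((measureReal_mono (subset_univ _)).trans (le_max_right _ _)).trans
        (le_mul_of_one_le_right h0 (Real.one_le_rpow h1 hs.le))
  · exact (h L hL hb hk r hr).trans (mul_le_mul_of_nonneg_right (le_max_left _ _) (by positivity))

/-- The logarithmic tail function. -/
def tailF (L : Submodule ℝ (Eu n)) (η : ℝ) (ξ : Sph n) : ℝ :=
  max 0 (Real.log (η / infDist (ξ : Eu n) (L : Set (Eu n))))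

theorem tail [IsFiniteMeasure μ] (h1 : DU G p μ) :
    ∃ C s : ℝ, 0 < s ∧ ∀ L : Submodule ℝ (Eu n), Inv G L → (Module.finrank ℝ L : ℝ) ≤ p →
      ∀ η : ℝ, 0 < η → Integrable (tailF L η) μ ∧ ∫ ξ, tailF L η ξ ∂μ ≤ C * η ^ s := by
  obtain ⟨C, s, hs, h⟩ := h1
  refine ⟨C / s, s, hs, fun L hL hk η hη => ?_⟩
  have hC : 0 ≤ C := by simpa using measureReal_nonneg.trans (h L hL hk 1 one_pos)
  have hc : Continuous fun ξ : Sph n => infDist (ξ : Eu n) (L : Set (Eu n)) :=
    (continuous_infDist_pt _).comp continuous_subtype_val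
  have hm : Measurable (tailF L η) :=
    measurable_const.max (measurable_const.div hc.measurable).log
  have h0 : 0 ≤ᵐ[μ] tailF L η := ae_of_all _ fun ξ => le_max_left _ _
  have hi := (integrableOn_exp_mul_Ioi (neg_neg_of_pos hs) 0).const_mul (C * η ^ s)
  have key : ∫⁻ ξ, ENNReal.ofReal (tailF L η ξ) ∂μ ≤ ENNReal.ofReal (C / s * η ^ s) := by
    rw [lintegral_eq_lintegral_meas_le μ h0 hm.aemeasurable]
    calc _ ≤ ∫⁻ t in Ioi 0, ENNReal.ofReal (C * η ^ s * Real.exp (-s * t)) :=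
          setLIntegral_mono' measurableSet_Ioi fun t ht => ?_
      _ = ENNReal.ofReal (∫ t in Ioi 0, C * η ^ s * Real.exp (-s * t)) :=
          (ofReal_integral_eq_lintegral_ofReal hi (ae_of_all _ fun t => by positivity)).symm
      _ = _ := by
          rw [integral_const_mul, integral_exp_mul_Ioi (neg_neg_of_pos hs), mul_zero,
            Real.exp_zero, neg_div_neg_eq]
          congr 1
          ring
    have h2 := h L hL hk (η * Real.exp (-t)) (by positivity)
    rw [Real.mul_rpow hη.le (Real.exp_pos _).le, ← Real.exp_mul, ← mul_assoc,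
      show -t * s = -s * t by ring] at h2
    refine le_trans (measure_mono fun ξ hξ => ?_)
      ((ofReal_measureReal (measure_ne_top μ _)).symm.trans_le (ENNReal.ofReal_le_ofReal h2))
    have h3 : t ≤ Real.log (η / infDist (ξ : Eu n) (L : Set (Eu n))) :=
      (le_max_iff.1 hξ).resolve_left (not_le.2 ht)
    change infDist (ξ : Eu n) (L : Set (Eu n)) ≤ η * Real.exp (-t)
    rcases (infDist_nonneg (x := (ξ : Eu n)) (s := (L : Set (Eu n)))).eq_or_lt with h4 | h4
    · rw [← h4]; positivity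
    · rw [Real.le_log_iff_exp_le (div_pos hη h4), le_div_iff₀ h4] at h3
      rw [Real.exp_neg, ← div_eq_mul_inv, le_div_iff₀ (Real.exp_pos _), mul_comm]
      exact h3
  refine ⟨⟨hm.aestronglyMeasurable, (hasFiniteIntegral_iff_ofReal h0).2
    (key.trans_lt ENNReal.ofReal_lt_top)⟩, ?_⟩
  rw [integral_eq_lintegral_of_nonneg_ae h0 hm.aestronglyMeasurable]
  exact ENNReal.toReal_le_of_le_ofReal (by positivity) key

theorem null [IsFiniteMeasure μ] (h1 : DU G p μ) {L : Submodule ℝ (Eu n)} (hL : Inv G L)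
    (hk : (Module.finrank ℝ L : ℝ) ≤ p) :
    ∀ᵐ ξ : Sph n ∂μ, 0 < infDist (ξ : Eu n) (L : Set (Eu n)) := by
  obtain ⟨C, s, hs, h⟩ := h1
  rw [ae_iff, ← measureReal_eq_zero_iff]
  refine le_antisymm (le_of_forall_pos_le_add fun ε hε => ?_) measureReal_nonneg
  obtain ⟨η, hη, h2⟩ := AMax_small C hs hε
  rw [zero_add]
  exact (measureReal_mono fun ξ hξ => (not_lt.1 hξ).trans hη.le).trans
    ((h L hL hk η hη).trans h2.le)

/-- The support function vanishes at most on a small invariant subspace. -/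
def Good (G : Subgroup (Iso n)) (p η : ℝ) (K : Set (Eu n)) : Prop :=
  IsCompact K ∧ K.Nonempty ∧ ∃ L : Submodule ℝ (Eu n), Inv G L ∧ (Module.finrank ℝ L : ℝ) ≤ p ∧
    ∀ ξ : Eu n, η * infDist ξ (L : Set (Eu n)) ≤ supp K ξ

theorem Good.pos [IsFiniteMeasure μ] (h1 : DU G p μ) {η : ℝ} (hη : 0 < η) {K : Set (Eu n)}
    (hK : Good G p η K) : ∀ᵐ ξ : Sph n ∂μ, 0 < supp K ξ := by
  obtain ⟨-, -, L, hL, hk, h⟩ := hK
  filter_upwards [null h1 hL hk] with ξ hξ
  exact (mul_pos hη hξ).trans_le (h ξ)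

theorem Good.int [IsFiniteMeasure μ] (h1 : DU G p μ) {η : ℝ} (hη : 0 < η) {K : Set (Eu n)}
    (hK : Good G p η K) : Integrable (fun ξ : Sph n => Real.log (supp K ξ)) μ := by
  obtain ⟨hc, hne, L, hL, hk, h⟩ := hK
  obtain ⟨C, s, -, h2⟩ := tail h1
  obtain ⟨R, hR⟩ := hc.isBounded.subset_closedBall 0
  refine ((integrable_const R).add (h2 L hL hk η⁻¹ (inv_pos.2 hη)).1).mono'
    ((continuous_supp hc).comp continuous_subtype_val).measurable.log.aestronglyMeasurable ?_
  filter_upwards [null h1 hL hk] with ξ hξ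
  have h3 : supp K ξ ≤ R := supp_le hne fun y hy => (real_inner_le_norm _ _).trans (by
    rw [norm_eq_of_mem_sphere, mul_one]; exact mem_closedBall_zero_iff.1 (hR hy))
  have h4 := mul_pos hη hξ
  have h5 := h4.trans_le (h ξ)
  have h6 := Real.log_le_log h4 (h ξ)
  have h7 := Real.log_le_self h5.le
  have h8 : 0 ≤ tailF L η⁻¹ ξ := le_max_left _ _
  have h9 : -Real.log (η * infDist (ξ : Eu n) (L : Set (Eu n))) ≤ tailF L η⁻¹ ξ := by
    rw [← Real.log_inv, mul_inv, ← div_eq_mul_inv]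
    exact le_max_right _ _
  change |Real.log (supp K ξ)| ≤ R + tailF L η⁻¹ ξ
  exact abs_le.2 ⟨by linarith only [h3, h5, h6, h9], by linarith only [h3, h7, h8]⟩

theorem Good.mono {η : ℝ} {K K' : Set (Eu n)} (hK : Good G p η K) (hK' : IsCompact K')
    (h : K ⊆ K') : Good G p η K' := by
  obtain ⟨-, hne, L, hL, hk, h1⟩ := hK
  exact ⟨hK', hne.mono h, L, hL, hk, fun ξ => (h1 ξ).trans (supp_mono hK' hne h ξ)⟩

theorem good_of_ball (hp : 1 < p) {K : Set (Eu n)} (hK : IsCompact K) {ρ : ℝ} (hρ : 0 < ρ)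
    (hB : closedBall (0 : Eu n) ρ ⊆ K) : Good G p ρ K := by
  refine Good.mono ⟨isCompact_closedBall _ _, nonempty_closedBall.2 hρ.le, ⊥, fun g _ x hx => ?_,
    by simpa using (zero_lt_one.trans hp).le, fun ξ => ?_⟩ hK hB
  · rw [Submodule.mem_bot] at hx ⊢
    rw [hx, map_zero]
  · rw [supp_closedBall _ hρ.le]
    simp

theorem int_le [IsFiniteMeasure μ] (h1 : DU G p μ) {η ε : ℝ} (hη : 0 < η) (hε : 0 < ε) :
    ∃ δ : ℝ, 0 < δ ∧ ∀ K K' : Set (Eu n), Good G p η K → Good G p η K' →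
      (∀ x ∈ K, ∃ y ∈ K', dist x y < δ) →
      ∫ ξ : Sph n, Real.log (supp K ξ) ∂μ ≤ ∫ ξ : Sph n, Real.log (supp K' ξ) ∂μ + ε := by
  obtain ⟨C, s, hs, h2⟩ := tail h1
  obtain ⟨θ, hθ, h3⟩ := AMax_small C hs (half_pos hε)
  obtain ⟨δ, hδ, h4⟩ := AMax_small (μ.real univ / (θ * η)) one_pos (half_pos hε)
  refine ⟨δ, hδ, fun K K' hK hK' h => ?_⟩
  have h7 := hK'.int h1 hη
  obtain ⟨hc', -, L, hL, hk, hl⟩ := hK'
  obtain ⟨h5, h6⟩ := h2 L hL hk θ hθ
  have h8 : ∫ ξ : Sph n, Real.log (supp K ξ) ∂μ ≤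
      ∫ ξ : Sph n, Real.log (supp K' ξ) + tailF L θ ξ + δ / (θ * η) ∂μ := by
    refine integral_mono_ae (hK.int h1 hη) ((h7.add h5).add (integrable_const _)) ?_
    filter_upwards [hK.pos h1 hη, null h1 hL hk] with ξ h9 h10
    have := AMax_real (b := supp K' ξ) (δ := δ) h9 (supp_le hK.2.1 fun x hx => ?_)
      (mul_pos hη h10) (hl ξ) (mul_pos hθ hη) hδ.le
    · rwa [mul_comm θ η, mul_div_mul_left _ _ hη.ne', mul_comm η θ] at this
    obtain ⟨y, hy, hxy⟩ := h x hx
    have a1 := le_supp hc' hy ξ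
    have a2 := real_inner_le_norm (x - y) ξ
    rw [norm_eq_of_mem_sphere, mul_one, inner_sub_left, ← dist_eq_norm] at a2
    linarith only [hxy, a1, a2]
  rw [integral_add (by exact h7.add h5) (integrable_const _), integral_add h7 h5, integral_const,
    smul_eq_mul] at h8
  rw [Real.rpow_one, div_mul_eq_mul_div, mul_div_assoc] at h4
  linarith only [h3, h4, h6, h8]

/-- Neighbourhoods of the subspace `W b I`. -/
def Nb (b : Fin n → Eu n) (I : Finset (Fin n)) (δ : ℝ) : Set (Sph n) :=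
  {ξ | ∀ l ∈ I, |⟪(ξ : Eu n), b l⟫| ≤ δ}

theorem Nb_meas (b : Fin n → Eu n) (I : Finset (Fin n)) (δ : ℝ) : MeasurableSet (Nb b I δ) := by
  have : Nb b I δ = ⋂ l ∈ I, {ξ : Sph n | |⟪(ξ : Eu n), b l⟫| ≤ δ} := by
    ext ξ
    simp [Nb]
  rw [this]
  exact (isClosed_biInter fun l _ => isClosed_le (by fun_prop) continuous_const).measurableSet

/-- Frames adapted to an invariant subspace. -/
def FrSet (G : Subgroup (Iso n)) (I : Finset (Fin n)) : Set (Fin n → Eu n) :=
  {b | Orthonormal ℝ b ∧ Gap G b I}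

theorem FrSet_compact (I : Finset (Fin n)) : IsCompact (FrSet G I) := by
  classical
  refine (isCompact_univ_pi fun _ : Fin n => isCompact_closedBall (0 : Eu n) 1).of_isClosed_subset
    ?_ fun b hb i _ => by simp [hb.1.1 i]
  have : FrSet G I = (⋂ i, ⋂ j, {b : Fin n → Eu n | ⟪b i, b j⟫ = if i = j then 1 else 0}) ∩
      ⋂ g ∈ G, ⋂ l ∈ I, ⋂ j ∉ I, {b : Fin n → Eu n | ⟪g (b j), b l⟫ = 0} := by
    ext b
    simp [FrSet, Gap, orthonormal_iff_ite]
  rw [this]
  exact (isClosed_iInter fun i => isClosed_iInter fun j => isClosed_eq (by fun_prop)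
    continuous_const).inter (isClosed_biInter fun g _ => isClosed_biInter fun l _ =>
      isClosed_iInter fun j => isClosed_iInter fun _ => isClosed_eq (by fun_prop) continuous_const)

theorem unifS [IsFiniteMeasure μ] (hpn : p < n) (hS : SubConc G p μ) : ∃ δ : ℝ, 0 < δ ∧
    ∀ I : Finset (Fin n), I.Nonempty → (I.card : ℝ) < n - p → ∀ b ∈ FrSet G I,
      (n - p) * μ.real (Nb b I δ) ≤ (n - p - I.card - δ) * μ.real univ := by
  have hq : (0 : ℝ) < n - p := sub_pos.2 hpn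
  suffices h : ∀ᶠ δ in 𝓝 (0 : ℝ), ∀ I : Finset (Fin n), I.Nonempty → (I.card : ℝ) < n - p →
      ∀ b ∈ FrSet G I, (n - p) * μ.real (Nb b I δ) ≤ (n - p - I.card - δ) * μ.real univ from
    (eventually_mem_nhdsWithin.and (h.filter_mono (nhdsWithin_le_nhds (s := Ioi 0)))).exists
  refine eventually_all.2 fun I => ?_
  by_cases hI : I.Nonempty ∧ (I.card : ℝ) < n - p
  swap
  · exact Eventually.of_forall fun δ h1 h2 => absurd ⟨h1, h2⟩ hI
  refine ((FrSet_compact I).eventually_forall_of_forall_eventually (P := fun δ b =>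
    (n - p) * μ.real (Nb b I δ) ≤ (n - p - I.card - δ) * μ.real univ) fun b hb => ?_).mono
    fun δ h _ _ => h
  have hr := W_rank hb.1 I
  have hr' : (Module.finrank ℝ (W b I) : ℝ) = n - I.card := by
    rw [eq_sub_iff_add_eq', ← Nat.cast_add, hr]
  have h1 := hS (W b I) (W_inv hb.1 hb.2) (fun h => by
    have := hI.1.card_pos
    rw [h, finrank_top, finrank_euclideanSpace_fin] at hr
    omega) (by linarith only [hr', hI.2])
  have h2 := tendsto_measure_biInter_gt (μ := μ) (s := Nb b I) (a := 0)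
    (fun r _ => (Nb_meas b I r).nullMeasurableSet)
    (fun i j _ hij ξ hξ l hl => (hξ l hl).trans hij) ⟨1, one_pos, measure_ne_top _ _⟩
  have h3 : ⋂ r > (0 : ℝ), Nb b I r = {ξ : Sph n | (ξ : Eu n) ∈ W b I} := by
    ext ξ
    simp only [mem_iInter, Nb, mem_ofPred_eq, W_mem]
    refine ⟨fun h l hl => abs_nonpos_iff.1 (le_of_forall_pos_le_add fun ε hε => ?_),
      fun h r hr l hl => ?_⟩
    · simpa using h ε hε l hl
    · rw [h l hl, abs_zero]
      exact le_of_lt hr
  rw [h3] at h2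
  have h4 := (((ENNReal.tendsto_toReal (measure_ne_top μ _)).comp h2).const_mul
    ((n : ℝ) - p)).add ((tendsto_id.mono_left (nhdsWithin_le_nhds (s := Ioi (0 : ℝ)))).mul_const
      (μ.real univ))
  rw [zero_mul, add_zero] at h4
  obtain ⟨η, hη, h5⟩ := (eventually_mem_nhdsWithin.and (h4.eventually (gt_mem_nhds h1))).exists
  have hη' : 0 < η / 2 := half_pos hη
  filter_upwards [ball_mem_nhds ((0 : ℝ), b) hη'] with z hz
  rw [mem_ball, Prod.dist_eq, max_lt_iff, Real.dist_eq, sub_zero] at hz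
  have h6 : μ.real (Nb z.2 I z.1) ≤ μ.real (Nb b I η) := measureReal_mono fun ξ hξ l hl => by
    have a1 := hξ l hl
    have a2 := abs_real_inner_le_norm (ξ : Eu n) (b l - z.2 l)
    rw [norm_eq_of_mem_sphere, one_mul, ← dist_eq_norm, dist_comm, inner_sub_right] at a2
    have a3 := dist_le_pi_dist z.2 b l
    have a4 := abs_sub_abs_le_abs_sub ⟪(ξ : Eu n), b l⟫ ⟪(ξ : Eu n), z.2 l⟫
    linarith only [a1, a2, a3, a4, hz.2, (abs_lt.1 hz.1).2]
  have h7 := mul_le_mul_of_nonneg_left h6 hq.le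
  have h8 : z.1 * μ.real univ ≤ η * μ.real univ :=
    mul_le_mul_of_nonneg_right (by linarith only [hη', (abs_lt.1 hz.1).2]) measureReal_nonneg
  change (n - p) * μ.real (Nb b I η) + η * μ.real univ < _ at h5
  rw [hr'] at h5
  linarith only [h5, h7, h8]

theorem abel (q : ℝ) (l : ℕ → ℝ) (e : ℕ) :
    q * l 0 - ∑ i ∈ Finset.range e, (q - (i + 1 : ℕ)) * (l i - l (i + 1)) =
      ∑ i ∈ Finset.range (e + 1), l i + (q - (e + 1)) * l e := by
  induction e with
  | zero => simp; ring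
  | succ e ih =>
    rw [Finset.sum_range_succ, ← sub_sub, ih, Finset.sum_range_succ _ (e + 1)]
    push_cast
    ring

end Pool.Agent.Work.MP_f7e2e5_gt.Sy
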