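import Pool.Agent.Work.MP_f7e2e5_gt.Sy.Defs

open MeasureTheory Set Metric Filter Topology TopologicalSpace
open scoped RealInnerProductSpace Pointwise NNReal

noncomputable section

namespace Pool.Agent.Work.MP_f7e2e5_gt.Sy

variable {n : ℕ}

/-- The Haar measure of the closure of `G`. -/
theorem exists_mean (G : Subgroup (Iso n)) : ∃ (H : Type) (_ : TopologicalSpace H)
    (_ : CompactSpace H) (_ : T2Space H) (_ : SecondCountableTopology H) (_ : MeasurableSpace H)
    (_ : BorelSpace H) (m : Measure H) (_ : IsProbabilityMeasure m) (ρ : H → Iso n),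
      (Continuous fun z : H × Eu n => ρ z.1 z.2) ∧ (Continuous fun z : H × Eu n => (ρ z.1)⁻¹ z.2) ∧
      (∀ S : Set H, IsClosed S → (∀ h, ρ h ∈ G → h ∈ S) → ∀ h, h ∈ S) ∧
      ∀ g ∈ G, ∀ f : Iso n → ℝ, ∫ h, f (g * ρ h) ∂m = ∫ h, f (ρ h) ∂m := by
  have : ContinuousStar (Eu n →L[ℝ] Eu n) :=
    ⟨(ContinuousLinearMap.adjoint (𝕜 := ℝ) (E := Eu n) (F := Eu n)).continuous⟩
  let e : unitary (Eu n →L[ℝ] Eu n) ≃* Iso n := Unitary.linearIsometryEquiv
  let A : Subgroup (unitary (Eu n →L[ℝ] Eu n)) := G.comap e.toMonoidHom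
  have hU : IsCompact (unitary (Eu n →L[ℝ] Eu n) : Set (Eu n →L[ℝ] Eu n)) :=
    (isCompact_closedBall 0 1).of_isClosed_subset isClosed_unitary fun u hu =>
      mem_closedBall_zero_iff.2 (ContinuousLinearMap.opNorm_le_bound _ zero_le_one fun x => by
        rw [one_mul]
        exact (Unitary.norm_map ⟨u, hu⟩ x).le)
  have : CompactSpace (unitary (Eu n →L[ℝ] Eu n)) := isCompact_iff_compactSpace.1 hU
  have : CompactSpace A.topologicalClosure :=
    isCompact_iff_compactSpace.1 A.isClosed_topologicalClosure.isCompact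
  let : MeasurableSpace A.topologicalClosure := borel _
  have : BorelSpace A.topologicalClosure := ⟨rfl⟩
  have hc : Continuous fun z : A.topologicalClosure × Eu n => e z.1 z.2 :=
    (continuous_subtype_val.comp (continuous_subtype_val.comp continuous_fst)).clm_apply
      continuous_snd
  refine ⟨A.topologicalClosure, inferInstance, inferInstance, inferInstance, inferInstance,
    inferInstance, inferInstance, Measure.haarMeasure ⊤, ⟨Measure.haarMeasure_self (K₀ := ⊤)⟩,
    fun h => e h, hc, ?_, fun S hS h x => ?_, fun g hg f => ?_⟩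
  · simpa [Function.comp_def] using hc.comp (continuous_inv.prodMap continuous_id)
  · have h1 : IsClosed (Subtype.val '' S) :=
      A.isClosed_topologicalClosure.isClosedEmbedding_subtypeVal.isClosedMap S hS
    have h3 : (A : Set (unitary (Eu n →L[ℝ] Eu n))) ⊆ Subtype.val '' S := fun a ha =>
      ⟨⟨a, A.le_topologicalClosure ha⟩, h _ ha, rfl⟩
    obtain ⟨y, hy, h2⟩ := closure_minimal h3 h1 x.2
    rwa [← Subtype.ext h2]
  · have h1 : e.symm g ∈ A := by
      change e (e.symm g) ∈ G
      rwa [e.apply_symm_apply]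
    rw [← integral_mul_left_eq_self (fun h : A.topologicalClosure => f (e h))
      ⟨_, A.le_topologicalClosure h1⟩]
    simp

end Pool.Agent.Work.MP_f7e2e5_gt.Sy
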