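import Pool.Agent.Work.MP_f7e2e5_gt.AMain
import Pool.Agent.Work.MP_f7e2e5_gt.Sy.Mean

open MeasureTheory Set Metric Filter Topology
open scoped RealInnerProductSpace Pointwise NNReal

noncomputable section

namespace Pool.Agent.Work.MP_f7e2e5_gt.Sy

variable {n : ℕ} {p : ℝ} {G : Subgroup (Iso n)}

/-- Invariant compact convex sets other than the origin. -/
def InvC (G : Subgroup (Iso n)) (K : Set (Eu n)) : Prop :=
  IsCompact K ∧ Convex ℝ K ∧ (∀ g ∈ G, ∀ x ∈ K, g x ∈ K) ∧ ∃ x ∈ K, x ≠ 0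

theorem inner_iso (g : Iso n) (x ξ : Eu n) : ⟪g x, ξ⟫ = ⟪x, g⁻¹ ξ⟫ := by
  rw [← g.inner_map_map x (g⁻¹ ξ)]
  simp

theorem zero_mem (hf : NoFix G) {C : Set (Eu n)} (h1 : IsClosed C) (h2 : Convex ℝ C)
    (h3 : C.Nonempty) (h4 : ∀ g ∈ G, ∀ x ∈ C, g x ∈ C) : (0 : Eu n) ∈ C := by
  obtain ⟨v, hv, h5⟩ := exists_norm_eq_iInf_of_complete_convex h3 h1.isComplete h2 0
  rwa [← hf v fun g hg => ?_]
  have h6 := (norm_eq_iInf_iff_real_inner_le_zero h2 hv).1 h5 _ (h4 g hg v hv)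
  rw [zero_sub, inner_neg_left, inner_sub_right, real_inner_self_eq_norm_sq,
    real_inner_comm] at h6
  have h7 := norm_sub_sq_real (g v) v
  rw [g.norm_map] at h7
  exact sub_eq_zero.1 (norm_eq_zero.1 (pow_eq_zero_iff two_ne_zero |>.1
    (le_antisymm (by linarith only [h6, h7]) (sq_nonneg _))))

theorem InvC.zero (hf : NoFix G) {K : Set (Eu n)} (hK : InvC G K) : (0 : Eu n) ∈ K :=
  zero_mem hf hK.1.isClosed hK.2.1 (hK.2.2.2.imp fun _ h => h.1) hK.2.2.1

theorem InvC.neg (hf : NoFix G) {K : Set (Eu n)} (hK : InvC G K) {x : Eu n}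
    (hx : x ∈ K) : -(((n : ℝ) + 1)⁻¹ • x) ∈ K := by
  classical
  have hN : (0 : ℝ) < n + 1 := by positivity
  have h0 := hK.zero hf
  let O : Set (Eu n) := {y | ∃ g ∈ G, g x = y}
  have hO : (0 : Eu n) ∈ closure (convexHull ℝ O) := by
    refine zero_mem hf isClosed_closure (convex_convexHull _ _).closure
      ⟨x, subset_closure (subset_convexHull _ _ ⟨1, G.one_mem, rfl⟩)⟩ fun g hg y hy => ?_
    refine map_mem_closure g.continuous hy (convexHull_min (t := g ⁻¹' convexHull ℝ O) ?_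
      ((convex_convexHull _ _).linear_preimage g.toLinearEquiv.toLinearMap))
    rintro _ ⟨h, hh, rfl⟩
    exact subset_convexHull ℝ _ ⟨g * h, G.mul_mem hg hh, rfl⟩
  refine hK.1.isClosed.closure_subset (Metric.mem_closure_iff.2 fun ε hε => ?_)
  obtain ⟨y, hy, h1⟩ := Metric.mem_closure_iff.1 hO ε hε
  obtain ⟨ι, _, z, w, h2, h3, h4, h5, h6⟩ := eq_pos_convex_span_of_mem_convexHull hy
  choose g hg hz using fun i => h2 (mem_range_self i)
  have h7 : (Fintype.card ι : ℝ) ≤ n + 1 := by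
    have := h3.card_le_finrank_succ.trans (Nat.succ_le_succ (Submodule.finrank_le _))
    rw [finrank_euclideanSpace_fin] at this
    exact_mod_cast this
  obtain ⟨j, hj⟩ : ∃ j, ((n : ℝ) + 1)⁻¹ ≤ w j := by
    by_contra h
    push Not at h
    rcases isEmpty_or_nonempty ι with h8 | h8
    · simp at h5
    have h9 := Finset.sum_lt_sum_of_nonempty Finset.univ_nonempty fun i _ => h i
    rw [h5, Finset.sum_const, Finset.card_univ, nsmul_eq_mul, ← div_eq_mul_inv,
      lt_div_iff₀ hN] at h9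
    linarith only [h7, h9]
  have h8 := hK.2.1.sum_mem (t := Finset.univ) (w := w)
    (z := fun i => (g j)⁻¹ (z i) - if i = j then x else 0) (fun i _ => (h4 i).le) h5
    (fun i _ => by
      rw [← hz]
      split_ifs with h
      · subst h
        simpa using h0
      · simpa using hK.2.2.1 _ (G.inv_mem (hg j)) _ (hK.2.2.1 _ (hg i) x hx))
  simp only [smul_sub, Finset.sum_sub_distrib, ← map_smul, ← map_sum, h6, smul_ite, smul_zero,
    Finset.sum_ite_eq', Finset.mem_univ, if_true] at h8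
  have ht : ((n : ℝ) + 1)⁻¹ / w j ∈ Icc (0 : ℝ) 1 :=
    ⟨div_nonneg (inv_pos.2 hN).le (h4 j).le, (div_le_one (h4 j)).2 hj⟩
  refine ⟨_, hK.2.1.smul_mem_of_zero_mem h0 h8 ht, ?_⟩
  rw [smul_sub, smul_smul, div_mul_cancel₀ _ (h4 j).ne', dist_comm, dist_eq_norm, sub_neg_eq_add,
    sub_add_cancel, norm_smul, LinearIsometryEquiv.norm_map, Real.norm_of_nonneg ht.1]
  rw [dist_comm, dist_zero_right] at h1
  exact (mul_le_of_le_one_left (norm_nonneg _) ht.2).trans_lt h1

theorem InvC.supp_nonneg (hf : NoFix G) {K : Set (Eu n)} (hK : InvC G K) (ξ : Eu n) :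
    0 ≤ supp K ξ := by
  simpa using le_supp hK.1 (hK.zero hf) ξ

theorem InvC.abs_le' (hf : NoFix G) {K : Set (Eu n)} (hK : InvC G K) {x : Eu n}
    (hx : x ∈ K) (ξ : Eu n) : |⟪x, ξ⟫| ≤ (n + 1) * supp K ξ := by
  have hN : (0 : ℝ) < n + 1 := by positivity
  have h1 := le_supp hK.1 hx ξ
  have h2 := le_supp hK.1 (hK.neg hf hx) ξ
  rw [inner_neg_left, real_inner_smul_left, ← mul_neg, inv_mul_le_iff₀ hN] at h2
  have h3 := mul_nonneg (Nat.cast_nonneg (α := ℝ) n) (hK.supp_nonneg hf ξ)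
  exact abs_le.2 ⟨by linarith only [h2], by linarith only [h1, h3]⟩

theorem auerbach {K : Set (Eu n)} (hK : IsCompact K) {ρ : ℝ} (hρ : 0 < ρ)
    (hB : closedBall (0 : Eu n) ρ ⊆ K) : ∃ x : Fin n → Eu n, (∀ i, x i ∈ K) ∧
      ∀ y ∈ K, ∀ ξ, |⟪y, ξ⟫| ≤ ∑ i, |⟪x i, ξ⟫| := by
  classical
  let b := (EuclideanSpace.basisFun (Fin n) ℝ).toBasis
  have hc : Continuous fun v : Fin n → Eu n => |b.det v| := by
    refine Continuous.abs ?_
    change Continuous fun v : Fin n → Eu n => (b.toMatrix v).det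
    refine Continuous.matrix_det (continuous_pi fun i => continuous_pi fun j => ?_)
    exact (b.coord i).continuous_of_finiteDimensional.comp (continuous_apply j)
  have h0 : (fun i => ρ • b i) ∈ univ.pi fun _ : Fin n => K := fun i _ => hB (by
    simp [b, norm_smul, abs_of_pos hρ])
  obtain ⟨x, hx, hm⟩ := (isCompact_univ_pi fun _ : Fin n => hK).exists_isMaxOn ⟨_, h0⟩
    hc.continuousOn
  have h1 : 0 < |b.det x| := by
    refine lt_of_lt_of_le ?_ (hm h0)
    change 0 < |b.det fun i => ρ • b i|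
    rw [b.det.map_smul_univ (fun _ => ρ) b, b.det_self]
    simp [hρ.ne']
  obtain ⟨hli, hsp⟩ := b.is_basis_iff_det.2 (abs_pos.1 h1).isUnit
  refine ⟨x, fun i => hx i trivial, fun y hy ξ => ?_⟩
  have h2 := (Module.Basis.mk hli hsp.ge).sum_repr y
  simp only [Module.Basis.mk_apply] at h2
  rw [← h2, sum_inner]
  refine (Finset.abs_sum_le_sum_abs _ _).trans (Finset.sum_le_sum fun i _ => ?_)
  rw [real_inner_smul_left, abs_mul]
  refine mul_le_of_le_one_left (abs_nonneg _) ?_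
  have h3 := congrArg (fun f => |f y|) (b.det_smul_mk_coord_eq_det_update hli hsp.ge i)
  have h4 : Function.update x i y ∈ univ.pi fun _ : Fin n => K := fun j _ => by
    rcases eq_or_ne j i with rfl | h
    · simpa using hy
    · simpa [h] using hx j trivial
  have h5 : |b.det (Function.update x i y)| ≤ |b.det x| := hm h4
  simp only [LinearMap.smul_apply, smul_eq_mul, abs_mul, Module.Basis.coord_apply] at h3
  change _ = |b.det (Function.update x i y)| at h3
  rw [← h3] at h5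
  exact (mul_le_iff_le_one_right h1).1 h5

theorem frame (hf : NoFix G) : ∃ c : ℝ, 1 ≤ c ∧ ∀ K : Set (Eu n), InvC G K →
    ∀ ρ : ℝ, 0 < ρ → closedBall (0 : Eu n) ρ ⊆ K → ∃ (b : Fin n → Eu n) (a : Fin n → ℝ),
      Orthonormal ℝ b ∧ Antitone a ∧ (∀ j, 0 < a j) ∧ (∀ y ∈ K, ∀ j, |⟪y, b j⟫| ≤ c * a j) ∧
      (∀ ξ j, a j * |⟪ξ, b j⟫| ≤ c * supp K ξ) ∧
      ∀ i j, a i ≠ a j → ∀ g ∈ G, ⟪g (b j), b i⟫ = 0 := by
  obtain ⟨H, _, _, _, _, _, _, m, _, σ, hσ1, hσ2, hd, hσ⟩ := exists_mean G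
  have hn0 : (0 : ℝ) ≤ n := Nat.cast_nonneg n
  refine ⟨(n + 1) ^ 2, by nlinarith, fun K hK ρ hρ hB => ?_⟩
  obtain ⟨x, hx, hy⟩ := auerbach hK.1 hρ hB
  have hI : ∀ {F : Type} [NormedAddCommGroup F] {f : H → F}, Continuous f → Integrable f m :=
    fun hf => hf.integrable_of_hasCompactSupport (HasCompactSupport.of_compactSpace _)
  have hv : ∀ y, Continuous fun h => σ h y := fun y => hσ1.comp (Continuous.prodMk_left y)
  have hint : ∀ ξ, Integrable (fun h => ∑ i, ⟪σ h (x i), ξ⟫ • σ h (x i)) m := fun ξ =>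
    hI (continuous_finsetSum _ fun i _ =>
      ((hv (x i)).inner (𝕜 := ℝ) continuous_const).smul (hv (x i)))
  have hint2 : ∀ ξ ζ, Integrable (fun h => ∑ i, ⟪σ h (x i), ξ⟫ * ⟪σ h (x i), ζ⟫) m := fun ξ ζ =>
    hI (continuous_finsetSum _ fun i _ =>
      ((hv _).inner continuous_const).mul ((hv _).inner continuous_const))
  let T : Eu n →ₗ[ℝ] Eu n :=
    { toFun := fun ξ => ∫ h, ∑ i, ⟪σ h (x i), ξ⟫ • σ h (x i) ∂m
      map_add' := fun ξ ζ => by
        rw [← integral_add (hint ξ) (hint ζ)]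
        simp only [inner_add_right, add_smul, Finset.sum_add_distrib]
      map_smul' := fun c ξ => by
        simp only [← integral_smul, real_inner_smul_right, mul_smul, Finset.smul_sum,
          RingHom.id_apply] }
  have hT2 : ∀ ξ ζ, ⟪T ξ, ζ⟫ = ∫ h, ∑ i, ⟪σ h (x i), ξ⟫ * ⟪σ h (x i), ζ⟫ ∂m := fun ξ ζ => by
    rw [real_inner_comm]
    refine (integral_inner (hint ξ) ζ).symm.trans ?_
    simp only [inner_sum, real_inner_smul_right]
    simp only [real_inner_comm _ ζ]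
  have hT : T.IsSymmetric := fun ξ ζ => by
    rw [real_inner_comm (T ζ) ξ, hT2, hT2]
    simp only [mul_comm]
  have hcomm : ∀ g ∈ G, ∀ ξ ζ, ⟪T (g ξ), g ζ⟫ = ⟪T ξ, ζ⟫ := fun g hg ξ ζ => by
    rw [hT2, hT2, ← hσ g hg fun A => ∑ i, ⟪A (x i), g ξ⟫ * ⟪A (x i), g ζ⟫]
    simp only [LinearIsometryEquiv.coe_mul, Function.comp_apply, g.inner_map_map]
  have hn : Module.finrank ℝ (Eu n) = n := finrank_euclideanSpace_fin
  set e := hT.eigenvectorBasis hn with he
  set lam := hT.eigenvalues hn with hl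
  have hev : ∀ j, T (e j) = lam j • e j := fun j => hT.apply_eigenvectorBasis hn j
  have hq : ∀ j, lam j = ∫ h, ∑ i, ⟪σ h (x i), e j⟫ * ⟪σ h (x i), e j⟫ ∂m := fun j => by
    rw [← hT2, hev, real_inner_smul_left, real_inner_self_eq_norm_sq, e.orthonormal.1 j]
    ring
  have hl0 : ∀ j, 0 ≤ lam j := fun j => by
    rw [hq]
    exact integral_nonneg fun h => Finset.sum_nonneg fun q _ => mul_self_nonneg _
  have hbox : ∀ y ∈ K, ∀ j, |⟪y, e j⟫| ≤ √n * √(lam j) := fun y hy' j => by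
    rw [← Real.sqrt_mul hn0]
    refine Real.abs_le_sqrt ?_
    rw [hq, ← integral_const_mul]
    refine le_trans (by simp) (integral_mono (integrable_const (⟪y, e j⟫ ^ 2))
      ((hint2 _ _).const_mul _) fun h => ?_)
    have h1 : (σ h)⁻¹ y ∈ K := hd {h | (σ h)⁻¹ y ∈ K} (hK.1.isClosed.preimage
      (hσ2.comp (Continuous.prodMk_left y))) (fun h hh => hK.2.2.1 _ (G.inv_mem hh) y hy') h
    have h2 := hy _ h1 ((σ h)⁻¹ (e j))
    simp only [LinearIsometryEquiv.inner_map_map, ← inner_iso] at h2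
    have h3 := sq_sum_le_card_mul_sum_sq (s := Finset.univ) (f := fun i => |⟪σ h (x i), e j⟫|)
    simp only [sq_abs, Finset.card_univ, Fintype.card_fin] at h3
    simp only [← sq]
    rw [← sq_abs]
    exact (pow_le_pow_left₀ (abs_nonneg _) h2 2).trans h3
  have hsq : √(n : ℝ) ≤ n + 1 := Real.sqrt_le_iff.2 ⟨by positivity, by nlinarith⟩
  refine ⟨e, fun j => √(lam j), e.orthonormal,
    fun i j h => Real.sqrt_le_sqrt (hT.eigenvalues_antitone hn h), fun j => ?_,
    fun y hy' j => (hbox y hy' j).trans (mul_le_mul_of_nonneg_right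
      (by nlinarith) (Real.sqrt_nonneg _)), fun ξ j => ?_, fun i j hij g hg => ?_⟩
  · have h1 := hbox (ρ • e j) (hB (by simp [norm_smul, abs_of_pos hρ, e.orthonormal.1 j])) j
    rw [real_inner_smul_left, real_inner_self_eq_norm_sq, e.orthonormal.1 j, one_pow, mul_one,
      abs_of_pos hρ] at h1
    exact pos_of_mul_pos_left (hρ.trans_le (h1.trans_eq (mul_comm _ _))) (Real.sqrt_nonneg _)
  · have hs := hK.supp_nonneg hf ξ
    have h1 : ⟪T ξ, ξ⟫ = ∑ l, lam l * ⟪ξ, e l⟫ ^ 2 := by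
      rw [← e.sum_inner_mul_inner (T ξ) ξ]
      refine Finset.sum_congr rfl fun l _ => ?_
      rw [hT ξ (e l), hev, real_inner_smul_right, real_inner_comm ξ (e l)]
      ring
    have h2 : lam j * ⟪ξ, e j⟫ ^ 2 ≤ ⟪T ξ, ξ⟫ := by
      rw [h1]
      exact Finset.single_le_sum (f := fun l => lam l * ⟪ξ, e l⟫ ^ 2)
        (fun l _ => mul_nonneg (hl0 l) (sq_nonneg _)) (Finset.mem_univ j)
    have h3 : ⟪T ξ, ξ⟫ ≤ n * ((n + 1) * supp K ξ) ^ 2 := by
      rw [hT2]
      refine (integral_mono (hint2 _ _) (integrable_const (n * ((n + 1) * supp K ξ) ^ 2))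
        fun h => ?_).trans (by simp)
      refine (Finset.sum_le_card_nsmul _ _ (((n + 1) * supp K ξ) ^ 2) fun q _ => ?_).trans
        (by simp)
      rw [← sq, ← sq_abs]
      exact pow_le_pow_left₀ (abs_nonneg _) (hK.abs_le' hf (hd {h | σ h (x q) ∈ K}
        (hK.1.isClosed.preimage (hv _)) (fun h hh => hK.2.2.1 _ hh _ (hx q)) h) ξ) 2
    refine abs_le_of_sq_le_sq' ?_ (by positivity) |>.2
    rw [mul_pow, Real.sq_sqrt (hl0 j), sq_abs]
    refine h2.trans (h3.trans ?_)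
    calc n * ((n + 1) * supp K ξ) ^ 2 ≤ ((n : ℝ) + 1) ^ 2 * ((n + 1) * supp K ξ) ^ 2 :=
          mul_le_mul_of_nonneg_right (by nlinarith) (sq_nonneg _)
      _ = _ := by ring
  · have h1 := hT (g (e j)) (e i)
    have h3 := hcomm g hg (e j) (g⁻¹ (e i))
    rw [hev, real_inner_smul_left, ← inner_iso g (e j)] at h3
    rw [hev, real_inner_smul_right] at h1
    have h4 : g (g⁻¹ (e i)) = e i := by simp
    rw [h4, h1] at h3
    have h2 : lam j - lam i ≠ 0 := fun h => hij (congrArg Real.sqrt (sub_eq_zero.1 h).symm)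
    exact (mul_eq_zero.1 (show (lam j - lam i) * ⟪g (e j), e i⟫ = 0 by
      linarith only [h3])).resolve_left h2

theorem onb {b : Fin n → Eu n} (hb : Orthonormal ℝ b) :
    ∃ B : OrthonormalBasis (Fin n) ℝ (Eu n), ⇑B = b :=
  ⟨OrthonormalBasis.mk hb (hb.linearIndependent.span_eq_top_of_card_eq_finrank' (by simp)).ge,
    OrthonormalBasis.coe_mk _ _⟩

/-- The orthogonal complement of a part of a frame. -/
def W (b : Fin n → Eu n) (I : Finset (Fin n)) : Submodule ℝ (Eu n) :=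
  (Submodule.span ℝ (range fun i : I => b i))ᗮ

theorem W_mem {b : Fin n → Eu n} {I : Finset (Fin n)} {ξ : Eu n} :
    ξ ∈ W b I ↔ ∀ l ∈ I, ⟪ξ, b l⟫ = 0 := by
  rw [W, Submodule.mem_orthogonal']
  refine ⟨fun h l hl => h _ (Submodule.subset_span ⟨⟨l, hl⟩, rfl⟩), fun h u hu => ?_⟩
  have : Submodule.span ℝ (range fun i : I => b i) ≤
      LinearMap.ker ((innerSL ℝ ξ : Eu n →L[ℝ] ℝ) : Eu n →ₗ[ℝ] ℝ) := by
    rw [Submodule.span_le]
    rintro _ ⟨i, rfl⟩
    exact h i i.2
  exact this hu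

theorem W_rank {b : Fin n → Eu n} (hb : Orthonormal ℝ b) (I : Finset (Fin n)) :
    I.card + Module.finrank ℝ (W b I) = n := by
  have h1 := finrank_span_eq_card (hb.linearIndependent.comp (fun i : I => (i : Fin n))
    Subtype.val_injective)
  have h2 := Submodule.finrank_add_finrank_orthogonal (Submodule.span ℝ (range fun i : I => b i))
  rw [finrank_euclideanSpace_fin] at h2
  rw [Fintype.card_coe] at h1
  rw [← h1]
  exact h2

theorem W_dist {b : Fin n → Eu n} (hb : Orthonormal ℝ b) (I : Finset (Fin n)) (ξ : Eu n) :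
    infDist ξ (W b I : Set (Eu n)) ≤ ∑ l ∈ I, |⟪ξ, b l⟫| := by
  have h1 : ξ - ∑ l ∈ I, ⟪ξ, b l⟫ • b l ∈ W b I := W_mem.2 fun l hl => by
    rw [inner_sub_left, hb.inner_left_sum _ hl]
    simp
  refine (infDist_le_dist_of_mem h1).trans ?_
  rw [dist_eq_norm, sub_sub_cancel]
  refine (norm_sum_le _ _).trans (Finset.sum_le_sum fun l _ => ?_)
  rw [norm_smul, hb.1 l, mul_one, Real.norm_eq_abs]

/-- The part `I` of the frame spans an invariant subspace. -/
def Gap (G : Subgroup (Iso n)) (b : Fin n → Eu n) (I : Finset (Fin n)) : Prop :=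
  ∀ g ∈ G, ∀ l ∈ I, ∀ j ∉ I, ⟪g (b j), b l⟫ = 0

theorem W_inv {b : Fin n → Eu n} (hb : Orthonormal ℝ b) {I : Finset (Fin n)} (h : Gap G b I) :
    Inv G (W b I) := by
  obtain ⟨B, rfl⟩ := onb hb
  intro g hg x hx
  refine W_mem.2 fun l hl => ?_
  rw [← B.sum_repr' x, map_sum, sum_inner]
  refine Finset.sum_eq_zero fun j _ => ?_
  rw [map_smul, real_inner_smul_left]
  by_cases hj : j ∈ I
  · rw [real_inner_comm, W_mem.1 hx j hj, zero_mul]
  · rw [h g hg l hl j hj, mul_zero]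

theorem cap_box_le (hp : 1 < p) {b : Fin n → Eu n} (hb : Orthonormal ℝ b) {s : Fin n → ℝ} {r : ℝ}
    (hr : 0 < r) (hs : ∀ j, r ≤ s j) {K : Set (Eu n)} (hK : IsCompact K) (hne : K.Nonempty)
    (h : ∀ y ∈ K, ∀ j, |⟪y, b j⟫| ≤ s j) : cap p K ≤ r⁻¹ ^ p * ∏ j, 4 * s j := by
  obtain ⟨B, rfl⟩ := onb hb
  let u : Eu n → ℝ := fun x => Zero_cl (1 - r⁻¹ * infDist x K)
  have hu : ∀ x, u x = 0 ∨ ∃ y ∈ K, dist x y ≤ r := fun x => by
    obtain ⟨y, hy, e⟩ := hK.exists_infDist_eq_dist hne x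
    rcases le_total (dist x y) r with h1 | h1
    · exact Or.inr ⟨y, hy, h1⟩
    · refine Or.inl (Zero_cl_zero ?_)
      rw [e, sub_nonpos, le_inv_mul_iff₀ hr, mul_one]
      exact h1
  have hadm : Adm K u := by
    refine ⟨⟨Zero_lip_cl ((LipF.const 1).sub (LipF.const_mul ⟨1, lipschitz_infDist_pt K⟩ _)), ?_⟩,
      fun x => Zero_cl_nonneg _, fun x => Zero_cl_le _, fun x hx => ?_⟩
    · refine HasCompactSupport.intro (hK.cthickening (r := r)) fun x hx => ?_
      refine (hu x).resolve_right fun ⟨y, hy, h1⟩ => hx (mem_cthickening_of_dist_le x y r K hy h1)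
    · exact Zero_cl_one (by rw [infDist_zero_of_mem hx]; simp)
  let Q : Set (Eu n) := B.repr ⁻¹' ((WithLp.ofLp : Eu n → Fin n → ℝ) ⁻¹'
    Icc (fun j => -(2 * s j)) fun j => 2 * s j)
  have hQc : IsClosed Q := (isClosed_Icc.preimage (PiLp.continuous_ofLp 2 _)).preimage
    B.repr.continuous
  have hQv : volume Q = volume (Icc (fun j => -(2 * s j)) fun j => 2 * s j) := by
    rw [B.measurePreserving_repr.measure_preimage
      ((PiLp.volume_preserving_ofLp (Fin n)).measurable measurableSet_Icc).nullMeasurableSet,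
      (PiLp.volume_preserving_ofLp (Fin n)).measure_preimage measurableSet_Icc.nullMeasurableSet]
  have hQf : volume Q ≠ ⊤ := by
    rw [hQv]
    exact isCompact_Icc.measure_lt_top.ne
  have hQr : volume.real Q = ∏ j, 4 * s j := by
    rw [measureReal_def, hQv, Real.volume_Icc_pi_toReal fun j => by
      have := hs j
      linarith only [this, hr]]
    exact Finset.prod_congr rfl fun j _ => by ring
  have hout : ∀ x ∉ Q, u x = 0 := fun x hx => (hu x).resolve_right fun ⟨y, hy, h1⟩ => hx (by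
    have key : ∀ j, |⟪x, B j⟫| ≤ 2 * s j := fun j => by
      have h2 := abs_real_inner_le_norm (x - y) (B j)
      rw [hb.1 j, mul_one, ← dist_eq_norm, inner_sub_left] at h2
      have h3 := abs_sub_abs_le_abs_sub ⟪x, B j⟫ ⟪y, B j⟫
      linarith only [h y hy j, hs j, h1, h2, h3]
    refine ⟨fun j => ?_, fun j => ?_⟩
    · change _ ≤ B.repr x j
      rw [B.repr_apply_apply, real_inner_comm]
      exact (abs_le.1 (key j)).1
    · change B.repr x j ≤ _
      rw [B.repr_apply_apply, real_inner_comm]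
      exact (abs_le.1 (key j)).2)
  have hpt : ∀ x, ‖gradient u x‖ ^ p ≤ Q.indicator (fun _ => r⁻¹ ^ p) x := fun x => by
    by_cases hx : x ∈ Q
    · rw [indicator_of_mem hx]
      refine Real.rpow_le_rpow (norm_nonneg _) (Zero_grad (inv_pos.2 hr).le
        (Eventually.of_forall fun z => (Zero_cl_sub _ _).trans ?_)) (by linarith only [hp])
      have h1 := (lipschitz_infDist_pt K).dist_le_mul x z
      rw [NNReal.coe_one, one_mul, Real.dist_eq, dist_comm, dist_eq_norm] at h1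
      rw [sub_sub_sub_cancel_left, ← mul_sub, abs_mul, abs_of_pos (inv_pos.2 hr)]
      exact mul_le_mul_of_nonneg_left h1 (inv_pos.2 hr).le
    · have : gradient u x = 0 := by
        refine norm_le_zero_iff.1 (Zero_grad le_rfl ?_)
        filter_upwards [hQc.isOpen_compl.mem_nhds hx] with z hz
        simp [hout z hz, hout x hx]
      rw [indicator_of_notMem hx, this, norm_zero, Real.zero_rpow (by linarith only [hp])]
  refine (cap_le_en hadm).trans ?_
  rw [en, Measure.restrict_univ]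
  refine (integral_mono_of_nonneg (Eventually.of_forall fun x => by positivity)
    ((integrableOn_const hQf).integrable_indicator hQc.measurableSet)
    (Eventually.of_forall hpt)).trans (le_of_eq ?_)
  rw [integral_indicator_const _ hQc.measurableSet, smul_eq_mul, hQr, mul_comm]

end Pool.Agent.Work.MP_f7e2e5_gt.Sy
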