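import Pool.Agent.Work.MP_f7e2e5_gt.Sy.Deg

open MeasureTheory Set Metric Filter Topology
open scoped RealInnerProductSpace Pointwise NNReal

noncomputable section

namespace Pool.Agent.Work.MP_f7e2e5_gt.Sy

variable {n : ℕ} {p : ℝ} {G : Subgroup (Iso n)} {μ : Measure (Sph n)}

theorem InvC.image {K : Set (Eu n)} (hK : InvC G K) {g : Iso n} (hg : g ∈ G) : g '' K = K :=
  Subset.antisymm (image_subset_iff.2 (hK.2.2.1 g hg)) fun x hx =>
    ⟨g⁻¹ x, hK.2.2.1 _ (G.inv_mem hg) x hx, by simp⟩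

theorem supp_image (g : Iso n) (K : Set (Eu n)) (ξ : Eu n) :
    supp (g '' K) ξ = supp K (g⁻¹ ξ) := by
  simp only [supp, image_image, inner_iso]

theorem sim_eq (g : Iso n) : sim 0 1 g = g := by
  funext x
  simp [sim]

theorem sphMap_cont (g : Iso n) : Continuous (sphMap g) :=
  (g.continuous.comp continuous_subtype_val).subtype_mk _

theorem solves_inv (hp : 1 < p) (hpn : p < n) {K : Set (Eu n)} (h : Solves p K μ) {g : Iso n}
    (hg : g '' K = K) : μ.map (sphMap g) = μ := by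
  obtain ⟨hK, -, ν, hν, rfl⟩ := h
  have := hν.1
  have hm := (sphMap_cont g).measurable
  have h1 : IsCapMeasure p K (ν.map (sphMap g)) := by
    refine ⟨inferInstance, fun L hL => ?_⟩
    have hL' : IsBody ((g⁻¹ : Iso n) '' L) := by
      rw [← sim_eq]
      exact hL.image_sim 0 one_pos _
    have key : ∀ t ∈ Ici (0 : ℝ), pCap p (K + t • L) = pCap p (K + t • (g⁻¹ : Iso n) '' L) :=
      fun t ht => by
      have e := cap_sim (zero_lt_one.trans hp) (K + t • (g⁻¹ : Iso n) '' L) 0 one_pos g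
      rw [Real.one_rpow, one_mul, sim_eq, Set.image_add, hg, image_smul_set, image_image] at e
      rw [pCap_eq_cap hp hpn (hK.add_smul hL ht), pCap_eq_cap hp hpn (hK.add_smul hL' ht), ← e]
      simp
    refine ((hν.2 _ hL').congr key (key 0 self_mem_Ici)).congr_deriv ?_
    rw [integral_map hm.aemeasurable (Solve_cont hL.1).aestronglyMeasurable]
    simp only [supp_image, inv_inv]
    rfl
  have h2 := Solve_uniq hp h1 hν
  ext s hs
  rw [Measure.map_apply hm hs, withDensity_apply _ (hm hs), withDensity_apply _ hs]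
  conv_rhs => rw [← h2, setLIntegral_map hs (Solve_meas hK.1) hm, ← hg]
  simp [supp_image, sphMap]

theorem el_le (hp : 1 < p) (hpn : p < n) [IsFiniteMeasure μ]
    (h0 : μ ≠ 0) {K : Set (Eu n)} (hK : InvC G K) (hB : Body0 K)
    (hmax : ∀ K', InvC G K' → Body0 K' → Phi p μ K' ≤ Phi p μ K) {μ0 : Measure (Sph n)}
    (hs : Solves p K μ0) {ψ : Eu n → ℝ} (hψ : Continuous ψ) (hev : ∀ g ∈ G, ∀ x, ψ (g x) = ψ x) :
    (p - 1) * (∫ ξ : Sph n, ψ ξ ∂μ0) / cap p K / (n - p) ≤
      (∫ ξ : Sph n, ψ ξ ∂μ) / μ.real univ := by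
  have hq : (0 : ℝ) < n - p := by linarith
  have hm : 0 < μ.real univ := by
    rw [Measure.real]
    exact ENNReal.toReal_pos (by simpa using h0) (measure_ne_top _ _)
  have hW := wulff_supp hB.1
  have hc := continuous_supp hB.1.1
  have hgc : Continuous (fun x => ψ x * supp K x) := hψ.mul hc
  have hu : ∀ ξ ∈ sphere (0 : Eu n) 1, ‖ξ‖ = 1 := fun ξ hξ => by simpa using hξ
  have hBW : Body0 (wulff (sphere 0 1) (supp K)) := by rw [hW]; exact hB
  obtain ⟨C, t0, -, ht0, -, hper⟩ := wulff_perturb (isCompact_sphere (0 : Eu n) 1) hu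
    hc.continuousOn hgc.continuousOn hBW
  have hτ : IsTau p (wulff (sphere 0 1) (supp K)) (tau p K) := by
    rw [hW]; exact isTau_tau hp hB
  have had := hadamard hp hpn (isCompact_sphere (0 : Eu n) 1) hu hc.continuousOn
    hgc.continuousOn hgc.measurable hBW hτ
  rw [hW, amain_tau hp hpn hB hs hψ] at had
  set Kt : ℝ → Set (Eu n) := fun t =>
    wulff (sphere 0 1) (fun ξ => supp K ξ + t * (ψ ξ * supp K ξ)) with hKt
  have hK0 : Kt 0 = K := by
    simp only [hKt, zero_mul, add_zero]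
    exact hW
  have hpos : ∀ K' : Set (Eu n), Body0 K' → 0 < cap p K' := fun K' h =>
    cap_pos hp hpn h.1.1.isBounded h.1.2.2
  have hcap := hpos K hB
  set I := ∫ ξ : Sph n, ψ ξ ∂μ with hI
  have hd : HasDerivWithinAt (fun t => Real.log (cap p (Kt t)) / (n - p) - t * (I / μ.real univ))
      ((p - 1) * (∫ ξ : Sph n, ψ ξ ∂μ0) / cap p K / (n - p) - I / μ.real univ) (Ici 0) 0 := by
    have h1 := (had.log (by
      show cap p (Kt 0) ≠ 0
      rw [hK0]; exact hcap.ne')).div_const ((n : ℝ) - p)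
    have h2 : HasDerivWithinAt (fun t : ℝ => t * (I / μ.real univ)) (I / μ.real univ)
        (Ici 0) 0 := by
      simpa using ((hasDerivAt_id (0 : ℝ)).mul_const (I / μ.real univ)).hasDerivWithinAt
    have h3 := h1.sub h2
    have h4 : cap p (wulff (sphere 0 1) (fun ξ => supp K ξ + 0 * (ψ ξ * supp K ξ))) = cap p K := by
      show cap p (Kt 0) = cap p K
      rw [hK0]
    rw [h4] at h3
    exact h3
  have hsK : ∀ g ∈ G, ∀ x, supp K (g x) = supp K x := fun g hg x => by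
    rw [← inv_inv g, ← supp_image, hK.image (G.inv_mem hg)]
  refine sub_nonpos.1 (amain_nonpos ht0 hd ?_)
  intro t ht ht'
  have hBt : Body0 (Kt t) := (hper t (by rwa [abs_of_pos ht])).1
  have hst : ∀ g ∈ G, ∀ x ∈ Kt t, g x ∈ Kt t := by
    intro g hg x hx ξ hξ
    have := hx (g⁻¹ ξ) (by simpa using hξ)
    simp only [hsK _ (G.inv_mem hg), hev _ (G.inv_mem hg)] at this
    rwa [inner_iso]
  have hle := hmax _ (invC_of_body hp hpn hBt hst) hBt
  have hct := hpos _ hBt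
  have hlog : ∫ ξ : Sph n, Real.log (supp (Kt t) ξ) ∂μ ≤
      ∫ ξ : Sph n, Real.log (supp K ξ) ∂μ + t * I := by
    have hψi : Integrable (fun ξ : Sph n => ψ ξ) μ := amain_int (hψ.comp continuous_subtype_val)
    rw [hI, ← integral_const_mul, ← integral_add (amain_int (amain_log_cont hB))
      (hψi.const_mul t)]
    refine integral_mono (amain_int (amain_log_cont hBt))
      ((amain_int (amain_log_cont hB)).add (hψi.const_mul t)) ?_
    intro ξ
    have h1 : supp (Kt t) ξ ≤ supp K ξ + t * (ψ ξ * supp K ξ) :=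
      supp_le ⟨0, interior_subset hBt.2⟩ (fun y hy => hy ξ ξ.2)
    have h2 := hB.supp_pos (amain_ne ξ)
    have h3 := hBt.supp_pos (amain_ne ξ)
    have h4 : supp (Kt t) ξ ≤ supp K ξ * Real.exp (t * ψ ξ) := by
      have := mul_le_mul_of_nonneg_left (Real.add_one_le_exp (t * ψ ξ)) h2.le
      linarith only [h1, this]
    have h5 := Real.log_le_log h3 h4
    rw [Real.log_mul h2.ne' (Real.exp_pos _).ne', Real.log_exp] at h5
    exact h5
  have hl2 := Real.log_le_log (mul_pos (Real.rpow_pos_of_pos hct _) (Real.exp_pos _)) hle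
  unfold Phi at hl2
  rw [Real.log_mul (Real.rpow_pos_of_pos hct _).ne' (Real.exp_pos _).ne',
    Real.log_mul (Real.rpow_pos_of_pos hcap _).ne' (Real.exp_pos _).ne', Real.log_exp,
    Real.log_exp, Real.log_rpow hct, Real.log_rpow hcap] at hl2
  have h6 := div_le_div_of_nonneg_right hlog hm.le
  simp only [hK0]
  rw [add_div, mul_div_assoc] at h6
  rw [neg_div, neg_div, one_div_mul_eq_div, one_div_mul_eq_div] at hl2
  linarith only [hl2, h6]

theorem average (G : Subgroup (Iso n)) {ψ : Eu n → ℝ} (hψ : Continuous ψ) :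
    ∃ χ : Eu n → ℝ, Continuous χ ∧ (∀ g ∈ G, ∀ x, χ (g x) = χ x) ∧
      ∀ (μ : Measure (Sph n)) [IsFiniteMeasure μ], (∀ g ∈ G, μ.map (sphMap g) = μ) →
        ∫ ξ : Sph n, χ ξ ∂μ = ∫ ξ : Sph n, ψ ξ ∂μ := by
  obtain ⟨H, _, _, _, _, _, _, m, _, σ, -, hσ2, hd, hσ⟩ := exists_mean G
  have h1 : Continuous fun z : Eu n × H => ψ ((σ z.2)⁻¹ z.1) :=
    hψ.comp (hσ2.comp continuous_swap)
  refine ⟨fun x => ∫ h, ψ ((σ h)⁻¹ x) ∂m, ?_, fun g hg x => ?_, fun μ _ hev => ?_⟩
  · simpa using continuous_parametric_integral_of_continuous (μ := m)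
      (f := fun x h => ψ ((σ h)⁻¹ x)) h1 isCompact_univ
  · simpa using (hσ g hg fun A => ψ (A⁻¹ (g x))).symm
  have h2 : Continuous fun z : Sph n × H => ψ ((σ z.2)⁻¹ z.1) :=
    h1.comp (continuous_subtype_val.prodMap continuous_id)
  have h3 : Continuous fun h : H => ∫ ξ : Sph n, ψ ((σ h)⁻¹ ξ) ∂μ := by
    simpa using continuous_parametric_integral_of_continuous (μ := μ)
      (f := fun (h : H) (ξ : Sph n) => ψ ((σ h)⁻¹ ξ)) (h2.comp continuous_swap) isCompact_univ
  have h4 := hd _ (isClosed_eq h3 (continuous_const (y := ∫ ξ : Sph n, ψ ξ ∂μ))) fun h hh => by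
    change _ = _
    conv_rhs => rw [← hev _ (G.inv_mem hh)]
    exact (integral_map (sphMap_cont _).measurable.aemeasurable
      (hψ.comp continuous_subtype_val).aestronglyMeasurable).symm
  rw [integral_integral_swap (f := fun (ξ : Sph n) (h : H) => ψ ((σ h)⁻¹ ξ))
    (h2.integrable_of_hasCompactSupport (HasCompactSupport.of_compactSpace _)),
    integral_congr_ae (Eventually.of_forall h4)]
  simp

/-- Euler-Lagrange equation. -/
theorem solves_max (hp : 1 < p) (hpn : p < n) [IsFiniteMeasure μ]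
    (h0 : μ ≠ 0) (hev : ∀ g ∈ G, μ.map (sphMap g) = μ) {K : Set (Eu n)} (hK : InvC G K)
    (hB : Body0 K) (hmax : ∀ K', InvC G K' → Body0 K' → Phi p μ K' ≤ Phi p μ K) :
    ∃ c : ℝ, 0 < c ∧ Solves p K (ENNReal.ofReal c • μ) := by
  obtain ⟨μ0, hs⟩ := exists_solves hp hpn hB
  have := hs.finite
  have hq : (0 : ℝ) < n - p := by linarith
  have hp1 : 0 < p - 1 := by linarith
  have hm : 0 < μ.real univ := by
    rw [Measure.real]
    exact ENNReal.toReal_pos (by simpa using h0) (measure_ne_top _ _)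
  have hcap : 0 < cap p K := cap_pos hp hpn hB.1.1.isBounded hB.1.2.2
  have hev0 : ∀ g ∈ G, μ0.map (sphMap g) = μ0 := fun g hg => solves_inv hp hpn hs (hK.image hg)
  have hc : 0 < (n - p) * cap p K / ((p - 1) * μ.real univ) := by positivity
  refine ⟨_, hc, ?_⟩
  have : IsFiniteMeasure (ENNReal.ofReal ((n - p) * cap p K / ((p - 1) * μ.real univ)) • μ) :=
    Measure.smul_finite μ ENNReal.ofReal_ne_top
  have heq : μ0 = ENNReal.ofReal ((n - p) * cap p K / ((p - 1) * μ.real univ)) • μ := by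
    refine ext_of_forall_integral_eq_of_IsFiniteMeasure (fun f => ?_)
    obtain ⟨ψ, hψ⟩ := ContinuousMap.exists_restrict_eq (isClosed_sphere (x := (0 : Eu n)) (ε := 1))
      f.toContinuousMap
    have hf : ∀ ξ : Sph n, f ξ = ψ ξ := fun ξ => by
      have := congrArg (fun g => g ξ) hψ
      exact this.symm
    simp only [hf]
    rw [integral_smul_measure, ENNReal.toReal_ofReal hc.le, smul_eq_mul]
    obtain ⟨χ, hχ, hχ', ha⟩ := average G ψ.continuous
    have h1 := el_le hp hpn h0 hK hB hmax hs hχ hχ'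
    have h2 := el_le hp hpn h0 hK hB hmax hs hχ.neg fun g hg x => congrArg Neg.neg (hχ' g hg x)
    simp only [Pi.neg_apply, integral_neg] at h2
    rw [mul_neg, neg_div, neg_div, neg_div, neg_le_neg_iff] at h2
    have h3 := le_antisymm h1 h2
    rw [ha μ hev, ha μ0 hev0] at h3
    field_simp at h3 ⊢
    linarith only [h3]
  rw [← heq]
  exact hs

theorem exists_normal {L : Submodule ℝ (Eu n)} (hL : L ≠ ⊤) :
    ∃ e : Eu n, ‖e‖ = 1 ∧ ∀ ξ : Eu n, |⟪ξ, e⟫| ≤ infDist ξ (L : Set (Eu n)) := by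
  obtain ⟨v, hv, h0⟩ := (Submodule.ne_bot_iff Lᗮ).1 fun h =>
    hL (Submodule.orthogonal_eq_bot_iff.1 h)
  have h1 : ‖‖v‖⁻¹ • v‖ = 1 := by
    rw [norm_smul, norm_inv, norm_norm, inv_mul_cancel₀ (norm_ne_zero_iff.2 h0)]
  refine ⟨_, h1, fun ξ => (le_infDist ⟨0, L.zero_mem⟩).2 fun y hy => ?_⟩
  have h2 := abs_real_inner_le_norm (ξ - y) (‖v‖⁻¹ • v)
  rwa [h1, mul_one, inner_sub_left, (Submodule.mem_orthogonal L _).1 (Lᗮ.smul_mem _ hv) y hy,
    sub_zero, ← dist_eq_norm] at h2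

/-- The decay conditions of the even case imply the three conditions, for every group. -/
theorem of_decay (hpn : p < n) [IsFiniteMeasure μ] (h0 : μ ≠ 0) (h1 : DecayHyper μ)
    (h2 : DecayLow p μ) : SubConc G p μ ∧ DecayUnif G p μ ∧ DecayInv G p μ := by
  have : NeZero μ := ⟨h0⟩
  have ht : ∀ L : Submodule ℝ (Eu n), (Module.finrank ℝ L : ℝ) ≤ p → L ≠ ⊤ := fun L h e => by
    rw [e, finrank_top, finrank_euclideanSpace_fin] at h
    exact hpn.not_ge h
  refine ⟨fun L _ hL hk => ?_, ?_, fun L _ hL hk => h2 L hL (ht L hk.le) hk⟩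
  · obtain ⟨e, he, h⟩ := exists_normal hL
    have : μ.real {ξ | (ξ : Eu n) ∈ L} = 0 := by
      rw [measureReal_eq_zero_iff]
      refine measure_mono_null (fun ξ hξ => ?_) (ae_iff.1 (AMax_null h1 he))
      exact not_lt.2 ((h ξ).trans_eq (infDist_zero_of_mem hξ))
    rw [this, mul_zero]
    exact mul_pos (sub_pos.2 hk) measureReal_univ_pos
  · obtain ⟨C, s, hs, h⟩ := h1
    refine ⟨C, s, hs, fun L _ _ hk r hr => ?_⟩
    obtain ⟨e, he, h3⟩ := exists_normal (ht L hk)
    exact le_trans (measureReal_mono fun ξ hξ => (h3 _).trans hξ) (h e he r hr)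

theorem main (hp : 1 < p) (hpn : p < n) (G : Subgroup (Iso n))
    (hf : ∀ v : Eu n, (∀ g ∈ G, g v = v) → v = 0) (μ : Measure (Sph n)) [IsFiniteMeasure μ]
    (h0 : μ ≠ 0) (hev : ∀ g ∈ G, μ.map (sphMap g) = μ)
    (h : (3 ≤ n ∧ ∃ Λ : ℝ≥0, μ ≤ Λ • (volume : Measure (Eu n)).toSphere) ∨
      (SubConc G p μ ∧ DecayUnif G p μ ∧ DecayInv G p μ)) :
    ∃ K : Set (Eu n), (∀ g ∈ G, g '' K = K) ∧ Solves p K μ := by
  have hd : SubConc G p μ ∧ DecayUnif G p μ ∧ DecayInv G p μ := by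
    rcases h with ⟨hn, Λ, hΛ⟩ | h
    · exact of_decay hpn h0 (decay_of_le hp hn hΛ).1 (decay_of_le hp hn hΛ).2
    · exact h
  obtain ⟨K, η, hη, hK, hG, hpos, hmax⟩ := exists_max hp hpn hf h0 hd.1 (DU_of hd.2.1)
  have hB := max_body hp hpn hf h0 (DU_of hd.2.1) hd.2.2 hK hη hG hpos hmax
  obtain ⟨c, hc, hs⟩ := solves_max hp hpn h0 hev hK hB hmax
  obtain ⟨l, hl, hs'⟩ := hs.exists_smul hp hpn (inv_pos.2 hc)
  refine ⟨l • K, fun g hg => (hK.smul hl).image hg, ?_⟩
  rwa [smul_smul, ← ENNReal.ofReal_mul (inv_pos.2 hc).le, inv_mul_cancel₀ hc.ne',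
    ENNReal.ofReal_one, one_smul] at hs'

end Pool.Agent.Work.MP_f7e2e5_gt.Sy
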