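import Pool.Agent.Work.MP_f7e2e5_gt.Sy.Coer

open MeasureTheory Set Metric Filter Topology TopologicalSpace
open scoped RealInnerProductSpace Pointwise NNReal

noncomputable section

namespace Pool.Agent.Work.MP_f7e2e5_gt.Sy

variable {n : ℕ} {p : ℝ} {G : Subgroup (Iso n)} {μ : Measure (Sph n)}

theorem InvC.smul {K : Set (Eu n)} (hK : InvC G K) {l : ℝ} (hl : 0 < l) : InvC G (l • K) := by
  obtain ⟨h1, h2, h3, x, hx, h0⟩ := hK
  refine ⟨h1.smul l, h2.smul l, ?_, l • x, smul_mem_smul_set hx, smul_ne_zero hl.ne' h0⟩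
  rintro g hg _ ⟨y, hy, rfl⟩
  rw [map_smul]
  exact smul_mem_smul_set (h3 g hg y hy)

theorem invC_of_body (hp : 1 < p) (hpn : p < n) {K : Set (Eu n)} (hB : Body0 K)
    (hs : ∀ g ∈ G, ∀ x ∈ K, g x ∈ K) : InvC G K := by
  obtain ⟨ρ, R, hρ, -, h1, -⟩ := hB.exists_radii
  have hn : 0 < n := by
    have : (0 : ℝ) < n := by linarith
    exact_mod_cast this
  refine ⟨hB.1.1, hB.1.2.1, hs, EuclideanSpace.single ⟨0, hn⟩ ρ, h1 ?_, ?_⟩
  · simp [abs_of_pos hρ]
  · intro h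
    have := congrArg norm h
    simp [hρ.ne'] at this

theorem phi_smul (hp : 1 < p) (hpn : p < n) [IsFiniteMeasure μ] (h0 : μ ≠ 0) {K : Set (Eu n)}
    (hK : Body0 K) {l : ℝ} (hl : 0 < l) : Phi p μ (l • K) = Phi p μ K := by
  have : NeZero μ := ⟨h0⟩
  have hM : 0 < μ.real univ := measureReal_univ_pos
  have hq : (n : ℝ) - p ≠ 0 := (sub_pos.2 hpn).ne'
  have e : ∫ ξ : Sph n, Real.log (supp (l • K) ξ) ∂μ =
      μ.real univ * Real.log l + ∫ ξ : Sph n, Real.log (supp K ξ) ∂μ := by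
    rw [← smul_eq_mul, ← integral_const,
      ← integral_add (integrable_const _) (amain_int (amain_log_cont hK))]
    refine integral_congr_ae (Eventually.of_forall fun ξ => ?_)
    simp only
    rw [supp_smul hK.1.1 hl.le, Real.log_mul hl.ne' (hK.supp_pos (amain_ne ξ)).ne']
  rw [Phi, Phi, e, cap_smul (zero_lt_one.trans hp) K hl,
    Real.mul_rpow (Real.rpow_nonneg hl.le _) (cap_nonneg _ _), ← Real.rpow_mul hl.le,
    mul_one_div_cancel hq, Real.rpow_one, neg_add, add_div, Real.exp_add, neg_div,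
    mul_div_cancel_left₀ _ hM.ne', Real.exp_neg, Real.exp_log hl]
  field_simp

/-- Convex invariant sets that reach the unit sphere. -/
def Fam0 (G : Subgroup (Iso n)) : Set (NonemptyCompacts (Eu n)) :=
  {K | Convex ℝ (K : Set (Eu n)) ∧ (∀ g ∈ G, ∀ x ∈ (K : Set (Eu n)), g x ∈ (K : Set (Eu n))) ∧
    ∃ e ∈ (K : Set (Eu n)), 1 ≤ ‖e‖}

theorem Fam0_closed : IsClosed (Fam0 G) := by
  refine isClosed_of_closure_subset fun K hK => ?_
  have h : ∀ δ : ℝ, 0 < δ → ∃ K' ∈ Fam0 G,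
      (∀ x ∈ (K : Set (Eu n)), ∃ y ∈ (K' : Set (Eu n)), dist x y < δ) ∧
      ∀ y ∈ (K' : Set (Eu n)), ∃ x ∈ (K : Set (Eu n)), dist y x < δ := fun δ hδ => by
    obtain ⟨K', h1, h2⟩ := Metric.mem_closure_iff.1 hK δ hδ
    exact ⟨K', h1, AMax_near h2, AMax_near (dist_comm K K' ▸ h2)⟩
  refine ⟨fun x hx y hy a b ha hb hab => ?_, fun g hg x hx => ?_, ?_⟩
  · refine K.isCompact.isClosed.closure_subset (Metric.mem_closure_iff.2 fun ε hε => ?_)
    obtain ⟨K', h1, h2, h3⟩ := h _ (half_pos hε)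
    obtain ⟨x', hx', h4⟩ := h2 x hx
    obtain ⟨y', hy', h5⟩ := h2 y hy
    obtain ⟨z, hz, h6⟩ := h3 _ (h1.1 hx' hy' ha hb hab)
    refine ⟨z, hz, (dist_triangle _ (a • x' + b • y') _).trans_lt ?_⟩
    have h7 := dist_add_add_le (a • x) (b • y) (a • x') (b • y')
    rw [dist_smul₀, dist_smul₀, Real.norm_of_nonneg ha, Real.norm_of_nonneg hb] at h7
    have h8 := mul_le_mul_of_nonneg_left h4.le ha
    have h9 := mul_le_mul_of_nonneg_left h5.le hb
    have h10 : a * (ε / 2) + b * (ε / 2) = ε / 2 := by rw [← add_mul, hab, one_mul]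
    linarith only [h6, h7, h8, h9, h10]
  · refine K.isCompact.isClosed.closure_subset (Metric.mem_closure_iff.2 fun ε hε => ?_)
    obtain ⟨K', h1, h2, h3⟩ := h _ (half_pos hε)
    obtain ⟨x', hx', h4⟩ := h2 x hx
    obtain ⟨z, hz, h6⟩ := h3 _ (h1.2.1 g hg x' hx')
    refine ⟨z, hz, (dist_triangle _ (g x') _).trans_lt ?_⟩
    rw [g.dist_map]
    linarith only [h4, h6]
  · obtain ⟨x, hx, h1⟩ := K.isCompact.exists_isMaxOn K.nonempty continuous_norm.continuousOn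
    refine ⟨x, hx, le_of_forall_pos_le_add fun ε hε => ?_⟩
    obtain ⟨K', ⟨-, -, e, he, h2⟩, -, h3⟩ := h ε hε
    obtain ⟨z, hz, h4⟩ := h3 e he
    have h5 : ‖z‖ ≤ ‖x‖ := h1 hz
    have h6 := norm_sub_norm_le e z
    rw [← dist_eq_norm] at h6
    linarith

theorem supp_cont (ξ : Eu n) :
    Continuous fun K : NonemptyCompacts (Eu n) => supp (K : Set (Eu n)) ξ := by
  refine (LipschitzWith.of_le_add_mul ‖ξ‖₊ fun K K' => supp_le K.nonempty fun y hy => ?_).continuous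
  obtain ⟨z, hz, e⟩ := K'.isCompact.exists_infDist_eq_dist K'.nonempty y
  have h1 := infDist_le_hausdorffDist_of_mem hy (hausdorffEDist_ne_top_of_nonempty_of_bounded
    K.nonempty K'.nonempty K.isCompact.isBounded K'.isCompact.isBounded)
  have h2 := le_supp K'.isCompact hz ξ
  have h3 := real_inner_le_norm (y - z) ξ
  rw [inner_sub_left, ← dist_eq_norm, ← e, mul_comm] at h3
  have h4 := mul_le_mul_of_nonneg_left h1 (norm_nonneg ξ)
  rw [coe_nnnorm, NonemptyCompacts.dist_eq]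
  linarith only [h2, h3, h4]

/-- The normalised family of sets that are thick in enough directions. -/
def Fam (G : Subgroup (Iso n)) (p η : ℝ) : Set (NonemptyCompacts (Eu n)) :=
  {K | ((K : Set (Eu n)) ⊆ closedBall 0 1 ∧ K ∈ Fam0 G) ∧ ∃ I : Finset (Fin n),
    (n : ℝ) - p ≤ I.card ∧ ∃ b ∈ FrSet G I, ∀ l ∈ I, ∀ ξ, η * |⟪ξ, b l⟫| ≤ supp (K : Set (Eu n)) ξ}

theorem Fam_compact (η : ℝ) : IsCompact (Fam G p η) := by
  have h0 : IsCompact ({K : NonemptyCompacts (Eu n) | (K : Set (Eu n)) ⊆ closedBall 0 1} ∩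
      Fam0 G) := (NonemptyCompacts.isCompact_subsets_of_isCompact
        (isCompact_closedBall 0 1)).inter_right Fam0_closed
  have : Fam G p η = ⋃ I ∈ {I : Finset (Fin n) | (n : ℝ) - p ≤ I.card}, Prod.fst ''
      ((({K : NonemptyCompacts (Eu n) | (K : Set (Eu n)) ⊆ closedBall 0 1} ∩ Fam0 G) ×ˢ
        FrSet G I) ∩ ⋂ l ∈ I, ⋂ ξ, {z | η * |⟪ξ, z.2 l⟫| ≤ supp (z.1 : Set (Eu n)) ξ}) := by
    ext K
    simp only [mem_iUnion, mem_image, mem_inter_iff, mem_iInter, mem_prod]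
    constructor
    · rintro ⟨h1, I, h2, b, h3, h4⟩
      exact ⟨I, h2, (K, b), ⟨⟨h1, h3⟩, h4⟩, rfl⟩
    · rintro ⟨I, h2, z, ⟨⟨h1, h3⟩, h4⟩, rfl⟩
      exact ⟨h1, I, h2, z.2, h3, h4⟩
  rw [this]
  exact (toFinite _).isCompact_biUnion fun I _ => ((h0.prod (FrSet_compact I)).inter_right
    (isClosed_biInter fun l _ => isClosed_iInter fun ξ => isClosed_le (by fun_prop)
      ((supp_cont ξ).comp continuous_fst))).image continuous_fst

theorem Fam_invC {η : ℝ} {K : NonemptyCompacts (Eu n)} (h : K ∈ Fam G p η) :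
    InvC G (K : Set (Eu n)) := by
  obtain ⟨⟨-, h2, h3, e, he, h4⟩, -⟩ := h
  exact ⟨K.isCompact, h2, h3, e, he, norm_pos_iff.1 (one_pos.trans_le h4)⟩

theorem Fam_good (hp : 1 < p) (hpn : p < n) (hf : NoFix G) {η : ℝ} (hη : 0 < η)
    {K : NonemptyCompacts (Eu n)} (h : K ∈ Fam G p η) : Good G p (η / n) (K : Set (Eu n)) := by
  have hs := (Fam_invC h).supp_nonneg hf
  obtain ⟨-, I, h1, b, hb, h2⟩ := h
  have hr := W_rank hb.1 I
  have hr' : (I.card : ℝ) + Module.finrank ℝ (W b I) = n := by exact_mod_cast hr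
  have hn : (0 : ℝ) < n := by linarith only [hp, hpn]
  refine ⟨K.isCompact, K.nonempty, W b I, W_inv hb.1 hb.2, by linarith only [h1, hr'], fun ξ => ?_⟩
  rw [div_mul_eq_mul_div, div_le_iff₀ hn]
  refine (mul_le_mul_of_nonneg_left (W_dist hb.1 I ξ) hη.le).trans ?_
  rw [Finset.mul_sum]
  refine (Finset.sum_le_card_nsmul _ _ _ fun l hl => h2 l hl ξ).trans ?_
  rw [nsmul_eq_mul, mul_comm]
  exact mul_le_mul_of_nonneg_left (by exact_mod_cast (by omega : I.card ≤ n)) (hs ξ)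

theorem Fam_usc (hp : 1 < p) (hpn : p < n) (hf : NoFix G) [IsFiniteMeasure μ]
    (h1 : DU G p μ) {η : ℝ} (hη : 0 < η) : UpperSemicontinuousOn
      (fun K : NonemptyCompacts (Eu n) => Phi p μ (K : Set (Eu n))) (Fam G p η) := by
  intro K hK y hy
  have hn : (0 : ℝ) < n := by linarith only [hp, hpn]
  have hq : 0 ≤ 1 / ((n : ℝ) - p) := one_div_nonneg.2 (sub_pos.2 hpn).le
  have hg : Continuous fun ε : ℝ => (cap p (K : Set (Eu n)) + ε) ^ (1 / ((n : ℝ) - p)) *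
      Real.exp (-((∫ ξ : Sph n, Real.log (supp (K : Set (Eu n)) ξ) ∂μ) - ε) / μ.real univ) := by
    refine Continuous.mul ?_ (by fun_prop)
    exact (continuous_const.add continuous_id).rpow_const fun _ => Or.inr hq
  have h2 := (hg.tendsto 0).mono_left (nhdsWithin_le_nhds (s := Ioi 0))
  rw [add_zero, sub_zero] at h2
  obtain ⟨ε, hε, h3⟩ := (eventually_mem_nhdsWithin.and (h2.eventually (gt_mem_nhds hy))).exists
  obtain ⟨δ₁, hδ₁, h4⟩ := cap_usc (zero_lt_one.trans hp) K.isCompact hε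
  obtain ⟨δ₂, hδ₂, h5⟩ := int_le h1 (div_pos hη hn) hε
  refine eventually_nhdsWithin_iff.2 ?_
  filter_upwards [ball_mem_nhds K hδ₁, ball_mem_nhds K hδ₂] with K' a1 a2 hK'
  have a3 : cap p (K' : Set (Eu n)) ≤ cap p (cthickening δ₁ (K : Set (Eu n))) :=
    cap_mono (fun x hx => by
    obtain ⟨z, hz, h⟩ := AMax_near a1 x hx
    exact mem_cthickening_of_dist_le x z _ _ hz h.le) K.isCompact.isBounded.cthickening
  have a4 := h5 K K' (Fam_good hp hpn hf hη hK) (Fam_good hp hpn hf hη hK')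
    (AMax_near (mem_ball'.1 a2))
  refine lt_of_le_of_lt (mul_le_mul (Real.rpow_le_rpow (cap_nonneg _ _) (a3.trans h4.le) hq)
    (Real.exp_le_exp.2 (div_le_div_of_nonneg_right (by linarith only [a4]) measureReal_nonneg))
    (Real.exp_pos _).le (Real.rpow_nonneg (add_nonneg (cap_nonneg _ _) (le_of_lt hε)) _)) h3

/-- The functional attains its maximum in the closure of the invariant bodies. -/
theorem exists_max (hp : 1 < p) (hpn : p < n) (hf : NoFix G) [IsFiniteMeasure μ]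
    (h0 : μ ≠ 0) (hS : SubConc G p μ) (hU : DU G p μ) :
    ∃ (K : Set (Eu n)) (η : ℝ), 0 < η ∧ InvC G K ∧ Good G p η K ∧ 0 < cap p K ∧
      ∀ K', InvC G K' → Body0 K' → Phi p μ K' ≤ Phi p μ K := by
  have hn : (0 : ℝ) < n := by linarith only [hp, hpn]
  have h3 := cap_pos hp hpn (isBounded_closedBall (x := (0 : Eu n)) (r := 1))
    ((nonempty_ball.2 one_pos).mono ball_subset_interior_closedBall)
  have hθ : 0 < Phi p μ (closedBall (0 : Eu n) 1) :=
    mul_pos (Real.rpow_pos_of_pos h3 _) (Real.exp_pos _)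
  obtain ⟨η, hη, hc⟩ := coer hp hpn hf h0 hS hU hθ
  have hη' : 0 < min η 1 := lt_min hη one_pos
  obtain ⟨ξ₀⟩ : Nonempty (Sph n) := by
    by_contra h
    rw [not_nonempty_iff] at h
    exact h0 (Measure.eq_zero_of_isEmpty μ)
  let B : NonemptyCompacts (Eu n) :=
    ⟨⟨closedBall 0 1, isCompact_closedBall _ _⟩, nonempty_closedBall.2 zero_le_one⟩
  have hB : B ∈ Fam G p (min η 1) := by
    refine ⟨⟨Subset.rfl, convex_closedBall _ _, fun g _ x hx => ?_, ξ₀,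
      sphere_subset_closedBall ξ₀.2, (norm_eq_of_mem_sphere ξ₀).ge⟩, Finset.univ,
      by simpa using (zero_lt_one.trans hp).le, EuclideanSpace.basisFun (Fin n) ℝ,
      ⟨(EuclideanSpace.basisFun (Fin n) ℝ).orthonormal, fun g _ l _ j hj =>
        absurd (Finset.mem_univ j) hj⟩, fun l _ ξ => ?_⟩
    · change x ∈ closedBall (0 : Eu n) 1 at hx
      change g x ∈ closedBall (0 : Eu n) 1
      simpa using hx
    · change _ ≤ supp (closedBall (0 : Eu n) 1) ξ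
      rw [supp_closedBall _ zero_le_one, inner_zero_left, zero_add]
      refine mul_le_mul (min_le_right _ _) ((abs_real_inner_le_norm _ _).trans_eq ?_)
        (abs_nonneg _) zero_le_one
      rw [(EuclideanSpace.basisFun (Fin n) ℝ).orthonormal.1 l, mul_one]
  obtain ⟨K, hK, hmax⟩ := (Fam_usc hp hpn hf hU hη').exists_isMaxOn ⟨B, hB⟩ (Fam_compact _)
  have h2 : Phi p μ (closedBall (0 : Eu n) 1) ≤ Phi p μ K := hmax hB
  refine ⟨K, _, div_pos hη' hn, Fam_invC hK, Fam_good hp hpn hf hη' hK,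
    (cap_nonneg _ _).lt_of_ne fun h => ?_, fun K' hK' hB' => ?_⟩
  · have h4 := hθ.trans_le h2
    rw [Phi, ← h, Real.zero_rpow (one_div_ne_zero (sub_pos.2 hpn).ne'), zero_mul] at h4
    exact h4.false
  obtain ⟨x, hx, hx0⟩ := hK'.2.2.2
  obtain ⟨y, hy, h1⟩ := hK'.1.exists_isMaxOn ⟨x, hx⟩ continuous_norm.continuousOn
  have h5 : 0 < ‖y‖ := (norm_pos_iff.2 hx0).trans_le (h1 hx)
  have h6 := hK'.smul (inv_pos.2 h5)
  have h4 : ∀ z : Eu n, ‖‖y‖⁻¹ • z‖ = ‖z‖ / ‖y‖ := fun z => by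
    rw [norm_smul, norm_inv, norm_norm, inv_mul_eq_div]
  have h7 : ∃ e ∈ ‖y‖⁻¹ • K', 1 ≤ ‖e‖ := ⟨_, smul_mem_smul_set hy, by rw [h4, div_self h5.ne']⟩
  rw [← phi_smul hp hpn h0 hB' (inv_pos.2 h5)]
  rcases hc _ h6 (hB'.smul (inv_pos.2 h5)) h7 with h | ⟨I, h8, b, hb, h9⟩
  · exact h.le.trans h2
  · refine hmax (a := ⟨⟨_, h6.1⟩, _, smul_mem_smul_set hy⟩) ⟨⟨?_, h6.2.1, h6.2.2.1, h7⟩, I, h8, b,
      hb, fun l hl ξ => (mul_le_mul_of_nonneg_right (min_le_left _ _) (abs_nonneg _)).trans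
        (h9 l hl ξ)⟩
    rintro _ ⟨z, hz, rfl⟩
    rw [mem_closedBall_zero_iff, h4, div_le_one h5]
    exact h1 hz

end Pool.Agent.Work.MP_f7e2e5_gt.Sy
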